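import Mathlib

/-!
PROJECT CY5, piece B0. In a division ring `D` of finite dimension over a central field `F` the
degree of the minimal polynomial of every element divides `[D : F]`.

Proof: `E = Algebra.adjoin F {x}` (or the range of `Polynomial.aeval x`) is commutative, a finite
dimensional domain over `F`, hence a field of dimension `(minpoly F x).natDegree` (basis
`1, x, ..., x^(n-1)`); `D` is a left vector space over `E`; use the tower law
`Module.finrank_mul_finrank F E D`.
-/

namespace Pool.Agent.Helper96.CY

theorem natDegree_minpoly_dvd {F D : Type*} [Field F] [DivisionRing D] [Algebra F D]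
    [FiniteDimensional F D] (x : D) : (minpoly F x).natDegree ∣ Module.finrank F D := by
  have hx : IsIntegral F x := Algebra.IsIntegral.isIntegral x
  have hirr : Irreducible (minpoly F x) := minpoly.irreducible hx
  haveI : Fact (Irreducible (minpoly F x)) := ⟨hirr⟩
  have hmem : ∀ a : Polynomial F, a ∈ Ideal.span {minpoly F x} → Polynomial.aeval x a = 0 := by
    intro a ha
    obtain ⟨b, rfl⟩ := Ideal.mem_span_singleton.1 ha
    rw [map_mul, minpoly.aeval, zero_mul]
  let φ : AdjoinRoot (minpoly F x) →ₐ[F] D :=
    Ideal.Quotient.liftₐ (Ideal.span {minpoly F x}) (Polynomial.aeval x) hmem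
  letI : Module (AdjoinRoot (minpoly F x)) D := Module.compHom D φ.toRingHom
  have hsm : ∀ (k : AdjoinRoot (minpoly F x)) (d : D), k • d = φ k * d := fun _ _ => rfl
  haveI : IsScalarTower F (AdjoinRoot (minpoly F x)) D := ⟨fun r k d => by
    rw [hsm, hsm, map_smul, smul_mul_assoc]⟩
  have h1 := Module.finrank_mul_finrank F (AdjoinRoot (minpoly F x)) D
  have h2 : Module.finrank F (AdjoinRoot (minpoly F x)) = (minpoly F x).natDegree := by
    rw [(AdjoinRoot.powerBasis hirr.ne_zero).finrank, AdjoinRoot.powerBasis_dim]
  rw [← h1, h2]
  exact Dvd.intro _ rfl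

end Pool.Agent.Helper96.CY
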