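import Mathlib

/-!
PROJECT CY5, piece B2c. Independence of left multiplications: if `e` is linearly independent over
the centre `F` and `sum_i e i * x * d i = 0` for all `x` then all `d i = 0`.

Proof: induction on the number `n` of terms (or on the number of nonzero `d i`). Suppose not all
`d i` are zero, say (after dropping zero terms and multiplying on the right by an inverse) the
last `d` is `1`. For every `a`: substituting `x * a`, resp. multiplying the relation by `a` on the
right, and subtracting gives `sum_i e i * x * (a * d i - d i * a) = 0`, with one term less, so by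
induction `a * d i = d i * a` for all `i`, so `d i` is in `F` (`hcen`); with `x = 1` this is a linear
relation between the `e i`. Contradiction.
-/

namespace Pool.Agent.Helper96.CY

theorem mul_mul_eq_zero {F D : Type*} [Field F] [DivisionRing D] [Algebra F D]
    (hcen : ∀ x : D, (∀ y, x * y = y * x) → ∃ c : F, algebraMap F D c = x)
    {n : ℕ} (e d : Fin n → D) (he : LinearIndependent F e)
    (h : ∀ x, ∑ i, e i * x * d i = 0) : ∀ i, d i = 0 := by
  classical
  suffices H : ∀ k : ℕ, ∀ d : Fin n → D, (Finset.univ.filter fun i => d i ≠ 0).card ≤ k →
      (∀ x, ∑ i, e i * x * d i = 0) → ∀ i, d i = 0 from H _ d le_rfl h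
  intro k
  induction k with
  | zero =>
    intro d hd _ i
    by_contra hi
    have h1 : i ∈ Finset.univ.filter fun i => d i ≠ 0 := by simp [hi]
    have h2 := Finset.card_pos.2 ⟨i, h1⟩
    omega
  | succ k ih =>
    intro d hd h
    by_contra hcon
    push Not at hcon
    obtain ⟨i0, hi0⟩ := hcon
    obtain ⟨d', hd'⟩ : ∃ d' : Fin n → D, d' = fun i => d i * (d i0)⁻¹ := ⟨_, rfl⟩
    have h' : ∀ x, ∑ i, e i * x * d' i = 0 := by
      intro x
      have h1 := congrArg (fun z => z * (d i0)⁻¹) (h x)
      simp only [Finset.sum_mul, zero_mul] at h1
      rw [hd', ← h1]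
      exact Finset.sum_congr rfl fun i _ => (mul_assoc _ _ _).symm
    have hd0 : d' i0 = 1 := by rw [hd']; exact mul_inv_cancel₀ hi0
    have hcomm : ∀ a : D, ∀ i, a * d' i - d' i * a = 0 := by
      intro a
      apply ih
      · have hsub : (Finset.univ.filter fun i => a * d' i - d' i * a ≠ 0) ⊆
            (Finset.univ.filter fun i => d i ≠ 0).erase i0 := by
          intro i hi
          have hi' := (Finset.mem_filter.1 hi).2
          refine Finset.mem_erase.2 ⟨?_, Finset.mem_filter.2 ⟨Finset.mem_univ _, ?_⟩⟩
          · rintro rfl
            exact hi' (by rw [hd0]; simp)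
          · intro h0
            apply hi'
            simp [hd', h0]
        have h1 := Finset.card_le_card hsub
        have h2 : i0 ∈ Finset.univ.filter fun i => d i ≠ 0 := by simp [hi0]
        rw [Finset.card_erase_of_mem h2] at h1
        omega
      · intro x
        have h1 := h' (x * a)
        have h2 := congrArg (fun z => z * a) (h' x)
        simp only [Finset.sum_mul, zero_mul] at h2
        calc ∑ i, e i * x * (a * d' i - d' i * a)
            = ∑ i, (e i * (x * a) * d' i - e i * x * d' i * a) := by
              refine Finset.sum_congr rfl fun i _ => ?_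
              rw [mul_sub]
              simp only [mul_assoc]
          _ = 0 := by rw [Finset.sum_sub_distrib, h1, h2, sub_zero]
    have hc : ∀ i, ∃ c : F, algebraMap F D c = d' i := fun i =>
      hcen _ fun y => (sub_eq_zero.1 (hcomm y i)).symm
    choose c hc using hc
    have h3 := h' 1
    have h4 : ∑ i, c i • e i = 0 := by
      rw [← h3]
      refine Finset.sum_congr rfl fun i _ => ?_
      rw [Algebra.smul_def, mul_one, ← hc]
      exact Algebra.commutes _ _
    have h5 := Fintype.linearIndependent_iff.1 he c h4 i0
    rw [← hc i0, h5, map_zero] at hd0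
    exact zero_ne_one hd0

end Pool.Agent.Helper96.CY
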