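import Pool.Agent.Helper76.CY.Lin

set_option autoImplicit false

/-!
# CY-6: the local form of a function
-/

namespace Pool.Agent.Helper96.CY

open MvPolynomial Pool.Agent.Helper76.CY

section

variable {ι K : Type*} [Fintype ι] [DecidableEq ι] [Field K]

omit [DecidableEq ι] in
theorem mem_sup_pow_of_forall (I : Ideal (MvPolynomial ι K)) (f : MvPolynomial ι K)
    (h : ∀ i : ℕ, f ∈ I ⊔ idealOfVars ι K ^ i) : f ∈ compIdeal I := by
  have hx : (Ideal.Quotient.mk I f) ∈
      (⨅ i : ℕ, idealOfVars ι K ^ i • ⊤ : Submodule (MvPolynomial ι K) (MvPolynomial ι K ⧸ I)) := by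
    rw [Submodule.mem_iInf]
    intro i
    obtain ⟨a, ha, b, hb, hab⟩ := Submodule.mem_sup.mp (h i)
    have h1 : Ideal.Quotient.mk I f = b • (1 : MvPolynomial ι K ⧸ I) := by
      have h2 : b • (1 : MvPolynomial ι K ⧸ I) = Ideal.Quotient.mk I (b * 1) := rfl
      rw [← hab, map_add, Ideal.Quotient.eq_zero_iff_mem.mpr ha, zero_add, h2, mul_one]
    rw [h1]
    exact Submodule.smul_mem_smul hb Submodule.mem_top
  obtain ⟨⟨r, hr⟩, hrx⟩ := (Ideal.mem_iInf_smul_pow_eq_bot_iff (idealOfVars ι K) _).mp hx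
  refine ⟨1 - r, ?_, ?_⟩
  · have h0 : constantCoeff r = 0 := by
      have h2 := (mem_pow_idealOfVars_iff' 1 r).mp (by rw [pow_one]; exact hr) 0
        (by simp)
      simpa [constantCoeff_eq] using h2
    rw [map_sub, h0, map_one, sub_zero]
    exact one_ne_zero
  · rw [← Ideal.Quotient.eq_zero_iff_mem]
    have h3 : Ideal.Quotient.mk I (r * f) = Ideal.Quotient.mk I f := hrx
    rw [sub_mul, one_mul, map_sub, h3, sub_self]

theorem lin_mem (φ : (ι → K) →ₗ[K] K) : lin φ ∈ idealOfVars ι K := by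
  unfold lin
  exact Ideal.sum_mem _ fun q _ => Ideal.mul_mem_left _ _ (Ideal.subset_span ⟨q, rfl⟩)

theorem linMap_mem (π : (ι → K) →ₗ[K] (ι → K)) (q : ι) : linMap π q ∈ idealOfVars ι K :=
  lin_mem _

theorem aeval_monomial_mem (π : (ι → K) →ₗ[K] (ι → K)) (s : ι →₀ ℕ) :
    aeval (linMap π) (monomial s (1 : K)) ∈ idealOfVars ι K ^ s.degree := by
  induction s using Finsupp.induction_linear with
  | zero => simp
  | add f g hf hg =>
    have h1 : (monomial (f + g) (1 : K)) = monomial f 1 * monomial g 1 := by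
      rw [monomial_mul, one_mul]
    rw [h1, map_mul, map_add, pow_add]
    exact Ideal.mul_mem_mul hf hg
  | single a n =>
    have h1 : (monomial (Finsupp.single a n) (1 : K)) = X a ^ n := (X_pow_eq_monomial).symm
    rw [h1, map_pow, aeval_X, Finsupp.degree_single]
    exact Ideal.pow_mem_pow (linMap_mem π a) n

omit [Fintype ι] [DecidableEq ι] in
theorem monomial_mem_pow (s : ι →₀ ℕ) :
    (monomial s (1 : K)) ∈ idealOfVars ι K ^ s.degree :=
  (monomial_mem_pow_idealOfVars_iff _ s one_ne_zero).mpr le_rfl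

omit [Fintype ι] [DecidableEq ι] in
theorem sup_mul_pow (I : Ideal (MvPolynomial ι K)) (a b c : ℕ) (hc : c = a + b)
    (x y : MvPolynomial ι K) (hx : x ∈ I ⊔ idealOfVars ι K ^ a) (hy : y ∈ idealOfVars ι K ^ b) :
    x * y ∈ I ⊔ idealOfVars ι K ^ c := by
  obtain ⟨u, hu, v, hv, rfl⟩ := Submodule.mem_sup.mp hx
  rw [add_mul]
  refine Ideal.add_mem _ (Ideal.mem_sup_left (I.mul_mem_right _ hu)) (Ideal.mem_sup_right ?_)
  rw [hc, pow_add]
  exact Ideal.mul_mem_mul hv hy

theorem sub_aeval_monomial (I : Ideal (MvPolynomial ι K)) (π : (ι → K) →ₗ[K] (ι → K))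
    (hπ : ∀ q, X q - linMap π q ∈ I ⊔ idealOfVars ι K ^ 2) (s : ι →₀ ℕ) :
    (monomial s (1 : K)) - aeval (linMap π) (monomial s (1 : K))
      ∈ I ⊔ idealOfVars ι K ^ (s.degree + 1) := by
  induction s using Finsupp.induction_linear with
  | zero => simp
  | add f g hf hg =>
    have h1 : (monomial (f + g) (1 : K)) = monomial f 1 * monomial g 1 := by
      rw [monomial_mul, one_mul]
    have h2 : (monomial f (1 : K)) * monomial g 1 -
        aeval (linMap π) ((monomial f (1 : K)) * monomial g 1) =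
        (monomial f 1 - aeval (linMap π) (monomial f (1 : K))) * monomial g 1 +
          (monomial g 1 - aeval (linMap π) (monomial g (1 : K))) *
            aeval (linMap π) (monomial f (1 : K)) := by
      rw [map_mul]; ring
    rw [h1, h2, map_add]
    refine Ideal.add_mem _ ?_ ?_
    · exact sup_mul_pow I (f.degree + 1) g.degree _ (by ring) _ _ hf (monomial_mem_pow g)
    · exact sup_mul_pow I (g.degree + 1) f.degree _ (by ring) _ _ hg (aeval_monomial_mem π f)
  | single a n =>
    have h1 : (monomial (Finsupp.single a n) (1 : K)) = X a ^ n := (X_pow_eq_monomial).symm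
    rw [h1, map_pow, aeval_X, Finsupp.degree_single]
    induction n with
    | zero => simp
    | succ n ih =>
      have ih' := ih (X_pow_eq_monomial).symm
      have h2 : (X a : MvPolynomial ι K) ^ (n + 1) - linMap π a ^ (n + 1) =
          (X a ^ n - linMap π a ^ n) * X a + (X a - linMap π a) * linMap π a ^ n := by ring
      rw [h2]
      refine Ideal.add_mem _ ?_ ?_
      · exact sup_mul_pow I (n + 1) 1 _ (by ring) _ _ ih'
          (by rw [pow_one]; exact Ideal.subset_span ⟨a, rfl⟩)
      · exact sup_mul_pow I 2 n _ (by ring) _ _ (hπ a) (Ideal.pow_mem_pow (linMap_mem π a) n)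

theorem sub_aeval_homogeneous (I : Ideal (MvPolynomial ι K)) (π : (ι → K) →ₗ[K] (ι → K))
    (hπ : ∀ q, X q - linMap π q ∈ I ⊔ idealOfVars ι K ^ 2) (p : MvPolynomial ι K) (d : ℕ)
    (hp : p.IsHomogeneous d) :
    p - aeval (linMap π) p ∈ I ⊔ idealOfVars ι K ^ (d + 1) := by
  have h1 : p - aeval (linMap π) p =
      ∑ s ∈ p.support, C (coeff s p) * (monomial s (1 : K) -
        aeval (linMap π) (monomial s (1 : K))) := by
    have h2 : ∑ s ∈ p.support, C (coeff s p) * monomial s (1 : K) = p := by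
      conv_rhs => rw [p.as_sum]
      refine Finset.sum_congr rfl fun s _ => ?_
      rw [C_mul_monomial, mul_one]
    have h3 : aeval (linMap π) p =
        ∑ s ∈ p.support, C (coeff s p) * aeval (linMap π) (monomial s (1 : K)) := by
      conv_lhs => rw [← h2]
      rw [map_sum]
      refine Finset.sum_congr rfl fun s _ => ?_
      rw [map_mul, aeval_C]
      rfl
    simp only [mul_sub, Finset.sum_sub_distrib]
    rw [h2, ← h3]
  rw [h1]
  refine Ideal.sum_mem _ fun s hs => Ideal.mul_mem_left _ _ ?_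
  have h4 : s.degree = d := by
    have := hp (mem_support_iff.mp hs)
    rwa [Finsupp.degree_eq_weight_one]
  rw [← h4]
  exact sub_aeval_monomial I π hπ s

omit [Fintype ι] [DecidableEq ι] in
theorem sub_homogeneousComponent_mem (g : MvPolynomial ι K) (d : ℕ)
    (hg : g ∈ idealOfVars ι K ^ d) :
    g - homogeneousComponent d g ∈ idealOfVars ι K ^ (d + 1) := by
  rw [mem_pow_idealOfVars_iff'] at hg ⊢
  intro x hx
  rw [coeff_sub, coeff_homogeneousComponent]
  by_cases h : x.degree = d
  · rw [if_pos h, sub_self]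
  · rw [if_neg h, sub_zero]
    exact hg x (by omega)

theorem local_form (I : Ideal (MvPolynomial ι K)) (π : (ι → K) →ₗ[K] (ι → K))
    (hπ : ∀ q, X q - linMap π q ∈ I ⊔ idealOfVars ι K ^ 2) (f : MvPolynomial ι K)
    (hf : f ∉ compIdeal I) : ∃ (d : ℕ) (g : MvPolynomial ι K), g ∈ idealOfVars ι K ^ d ∧
      f - g ∈ I ∧ aeval (linMap π) (homogeneousComponent d g) ≠ 0 := by
  classical
  have hex : ∃ i : ℕ, f ∉ I ⊔ idealOfVars ι K ^ i := by
    by_contra h
    push Not at h
    exact hf (mem_sup_pow_of_forall I f h)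
  have hmin := Nat.find_spec hex
  obtain ⟨d, hd⟩ : ∃ d, Nat.find hex = d + 1 := by
    rcases Nat.eq_zero_or_pos (Nat.find hex) with h0 | h0
    · rw [h0, pow_zero, Ideal.one_eq_top, sup_top_eq] at hmin
      exact absurd Submodule.mem_top hmin
    · exact ⟨Nat.find hex - 1, by omega⟩
  rw [hd] at hmin
  have hd' : f ∈ I ⊔ idealOfVars ι K ^ d := by
    by_contra h
    have := Nat.find_min' hex h
    omega
  obtain ⟨a, ha, g, hg, hag⟩ := Submodule.mem_sup.mp hd'
  refine ⟨d, g, hg, ?_, ?_⟩
  · rw [← hag, add_sub_cancel_right]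
    exact ha
  · intro h0
    apply hmin
    have h1 := sub_aeval_homogeneous I π hπ (homogeneousComponent d g) d
      (homogeneousComponent_isHomogeneous d g)
    rw [h0, sub_zero] at h1
    have h2 := sub_homogeneousComponent_mem g d hg
    have h3 : f = a + ((g - homogeneousComponent d g) + homogeneousComponent d g) := by
      rw [sub_add_cancel, hag]
    rw [h3]
    exact Ideal.add_mem _ (Ideal.mem_sup_left ha)
      (Ideal.add_mem _ (Ideal.mem_sup_right h2) h1)

end

end Pool.Agent.Helper96.CY
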