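import Mathlib

/-!
PROJECT CY5, piece B2a. `D` is a left vector space of dimension 5 over the subfield `L`.

Proof: `Module.compHom D ι.toRingHom` makes `D` an `L`-module with `IsScalarTower F L D`; tower
law `Module.finrank_mul_finrank F L D` gives `finrank L D = 5`; take a basis.
-/

namespace Pool.Agent.Helper96.CY

theorem exists_left_basis {F L D : Type*} [Field F] [Field L] [Algebra F L] [DivisionRing D]
    [Algebra F D] (hdim : Module.finrank F D = 25) (ι : L →ₐ[F] D)
    (hL : Module.finrank F L = 5) :
    ∃ b : Fin 5 → D, Function.Bijective (fun l : Fin 5 → L => ∑ i, ι (l i) * b i) := by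
  let _ : Module L D := Module.compHom D ι.toRingHom
  have hsmul : ∀ (l : L) (d : D), l • d = ι l * d := fun _ _ => rfl
  have : IsScalarTower F L D := ⟨fun c l d => by
    rw [hsmul, hsmul, map_smul, smul_mul_assoc]⟩
  have h1 : Module.finrank F L * Module.finrank L D = Module.finrank F D :=
    Module.finrank_mul_finrank F L D
  have h2 : Module.finrank L D = 5 := by
    rw [hL, hdim] at h1
    omega
  have : Module.Finite L D := Module.finite_of_finrank_pos (by rw [h2]; norm_num)
  let b := Module.finBasisOfFinrankEq L D h2
  refine ⟨b, ?_⟩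
  have h3 : (fun l : Fin 5 → L => ∑ i, ι (l i) * b i) = b.equivFun.symm := by
    funext l
    rw [Module.Basis.equivFun_symm_apply]
    rfl
  rw [h3]
  exact b.equivFun.symm.bijective

end Pool.Agent.Helper96.CY
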