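import Mathlib

/-!
PROJECT CY5, piece B2b. The representation of `D` by right multiplication on the left `L`-space
`D`, in row convention: `b i * x = sum_j ι (ρ x i j) * b j`.

Proof: existence and uniqueness of the coefficients is `hb`; additivity, multiplicativity
(`b i * (x * y) = sum_j ι (ρ x i j) * (b j * y)`), unit and `F`-linearity (`ι` is `F`-linear and
`F` is central) follow from uniqueness.
-/

namespace Pool.Agent.Helper96.CY

theorem exists_row_rep {F L D : Type*} [Field F] [Field L] [Algebra F L] [DivisionRing D]
    [Algebra F D] (ι : L →ₐ[F] D) (b : Fin 5 → D)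
    (hb : Function.Bijective (fun l : Fin 5 → L => ∑ i, ι (l i) * b i)) :
    ∃ ρ : D →ₐ[F] Matrix (Fin 5) (Fin 5) L, ∀ x i, b i * x = ∑ j, ι (ρ x i j) * b j := by
  classical
  choose c hc using hb.2
  have key : ∀ (l l' : Fin 5 → L), ∑ j, ι (l j) * b j = ∑ j, ι (l' j) * b j → l = l' :=
    fun l l' h => hb.1 h
  have hc' : ∀ d : D, ∑ j, ι (c d j) * b j = d := hc
  let M : D → Matrix (Fin 5) (Fin 5) L := fun x => Matrix.of fun i j => c (b i * x) j
  have hM : ∀ x i, ∑ j, ι (M x i j) * b j = b i * x := fun x i => hc' (b i * x)
  have huniq : ∀ (A : Matrix (Fin 5) (Fin 5) L) (x : D),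
      (∀ i, ∑ j, ι (A i j) * b j = b i * x) → M x = A := by
    intro A x h
    ext i j
    have := key (M x i) (A i) (by rw [hM, h])
    rw [this]
  have h1 : M 1 = 1 := by
    apply huniq
    intro i
    rw [Finset.sum_eq_single i]
    · simp
    · intro j _ hj
      rw [Matrix.one_apply_ne hj.symm, map_zero, zero_mul]
    · intro h; exact absurd (Finset.mem_univ i) h
  have hmul : ∀ x y, M (x * y) = M x * M y := by
    intro x y
    apply huniq
    intro i
    rw [← mul_assoc, ← hM x i, Finset.sum_mul]
    have : ∀ j, ι (M x i j) * b j * y = ∑ k, ι (M x i j * M y j k) * b k := by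
      intro j
      rw [mul_assoc, ← hM y j, Finset.mul_sum]
      apply Finset.sum_congr rfl
      intro k _
      rw [map_mul, mul_assoc]
    simp only [this, Matrix.mul_apply, map_sum, Finset.sum_mul]
    rw [Finset.sum_comm]
  have h0 : M 0 = 0 := by
    apply huniq
    intro i
    simp
  have hadd : ∀ x y, M (x + y) = M x + M y := by
    intro x y
    apply huniq
    intro i
    rw [mul_add, ← hM x i, ← hM y i, ← Finset.sum_add_distrib]
    apply Finset.sum_congr rfl
    intro j _
    rw [Matrix.add_apply, map_add, add_mul]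
  have hcomm : ∀ r : F, M (algebraMap F D r) = algebraMap F (Matrix (Fin 5) (Fin 5) L) r := by
    intro r
    apply huniq
    intro i
    rw [Finset.sum_eq_single i]
    · rw [Matrix.algebraMap_matrix_apply, if_pos rfl, AlgHom.commutes]
      exact Algebra.commutes r (b i)
    · intro j _ hj
      rw [Matrix.algebraMap_matrix_apply, if_neg hj.symm, map_zero, zero_mul]
    · intro h; exact absurd (Finset.mem_univ i) h
  let ρ : D →ₐ[F] Matrix (Fin 5) (Fin 5) L :=
    { toFun := M
      map_one' := h1
      map_mul' := hmul
      map_zero' := h0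
      map_add' := hadd
      commutes' := hcomm }
  exact ⟨ρ, fun x i => (hM x i).symm⟩

end Pool.Agent.Helper96.CY
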