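import Mathlib

/-!
PROJECT CY5, piece R1. Linear independence under extension of scalars, for matrices.
If 25 matrices in `M_5(L)` are linearly independent over the field `L` then so are their images in
`M_5(Ω)` over `Ω`, for a field homomorphism `L → Ω`.

Proof: the `25 × 25` matrix with rows the matrices (`Matrix.linearIndependent_rows_iff_isUnit` after
reindexing `Fin 25 ≃ Fin 5 × Fin 5`) has nonzero determinant, and `RingHom.map_det`. Any other proof
is fine.
-/

namespace Pool.Agent.Helper96.CY

/-- the linear equivalence `M_5(K) = K^25` -/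
noncomputable def r1_flat (K : Type*) [Field K] (e : Fin 25 ≃ Fin 5 × Fin 5) :
    Matrix (Fin 5) (Fin 5) K ≃ₗ[K] (Fin 25 → K) where
  toFun M := fun j => M (e j).1 (e j).2
  map_add' _ _ := rfl
  map_smul' _ _ := rfl
  invFun v := fun i j => v (e.symm (i, j))
  left_inv M := by
    ext i j
    simp
  right_inv v := by
    ext j
    simp

theorem r1_iff {K : Type*} [Field K] (e : Fin 25 ≃ Fin 5 × Fin 5)
    (b : Fin 25 → Matrix (Fin 5) (Fin 5) K) :
    LinearIndependent K b ↔ IsUnit (Matrix.of fun i j => b i (e j).1 (e j).2) := by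
  rw [← Matrix.linearIndependent_rows_iff_isUnit]
  rw [← (r1_flat K e).toLinearMap.linearIndependent_iff (LinearMap.ker_eq_bot.2
    (r1_flat K e).injective)]
  exact Iff.rfl

theorem linearIndependent_map {L Ω : Type*} [Field L] [Field Ω] (f : L →+* Ω)
    (b : Fin 25 → Matrix (Fin 5) (Fin 5) L) (hb : LinearIndependent L b) :
    LinearIndependent Ω (fun i => (b i).map f) := by
  let e : Fin 25 ≃ Fin 5 × Fin 5 := (finProdFinEquiv : Fin 5 × Fin 5 ≃ Fin (5 * 5)).symm
  rw [r1_iff e] at hb ⊢
  have h := hb.map (f.mapMatrix : Matrix (Fin 25) (Fin 25) L →+* Matrix (Fin 25) (Fin 25) Ω)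
  exact h

end Pool.Agent.Helper96.CY
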