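import Mathlib
import Pool.Agent.Helper58.CY.Defs
import Pool.Agent.Helper96.CY.B1
import Pool.Agent.Helper96.CY.B2
import Pool.Agent.Helper96.CY.R1

/-!
PROJECT CY5, piece R2. A central division algebra of dimension 25 is a form of `M_5(Ω)`, `Ω` any
algebraically closed field containing `F`.

Proof: B1 and B2 give `L`, `θ`, `ρ : D → M_5(L)` with `hinj`. Let `b` be an `F`-basis of `D` (25
elements). The matrices `ρ (b i)` are linearly independent over `L`: if `∑ λ_i • ρ (b i) = 0`, write
`λ_i = ∑_j algebraMap (f i j) * θ^j` (`1, θ, .., θ^4` is an `F`-basis of `L`: `minpoly` has degree 5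
and `finrank F L = 5`), then `∑_j θ^j • ρ (∑_i f i j • b i) = 0`, so all `∑_i f i j • b i = 0` and
`f i j = 0`. Embed `L` in `Ω` over `F` (`IsAlgClosed.lift`, `L` is algebraic over `F`); `φ` is `ρ`
followed by this embedding on entries (`AlgHom.mapMatrix`); R1 gives the independence over `Ω`.
-/

namespace Pool.Agent.Helper96.CY

open Pool.Agent.Helper58.CY

theorem exists_form {F D Ω : Type*} [Field F] [DivisionRing D] [Algebra F D] [Field Ω]
    [Algebra F Ω] [IsAlgClosed Ω]
    (hcen : ∀ x : D, (∀ y, x * y = y * x) → ∃ c : F, algebraMap F D c = x)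
    (hdim : Module.finrank F D = 25) :
    ∃ φ : D →ₐ[F] M5 Ω, Function.Injective φ ∧ IsForm φ.range := by
  classical
  have hfin : FiniteDimensional F D := Module.finite_of_finrank_pos (by rw [hdim]; norm_num)
  let b : Module.Basis (Fin 25) F D := Module.finBasisOfFinrankEq F D hdim
  obtain ⟨L, hLf, hLa, θ, ι, hL, hθ⟩ := exists_subfield hcen hdim
  obtain ⟨ρ, hρ⟩ := exists_rep hcen hdim ι hL θ hθ
  have hLfin : FiniteDimensional F L := Module.finite_of_finrank_pos (by rw [hL]; norm_num)
  have hli5 : LinearIndependent F (fun i : Fin 5 => θ ^ (i : ℕ)) := by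
    have h1 : LinearIndependent F (fun i : Fin (minpoly F θ).natDegree => θ ^ (i : ℕ)) :=
      linearIndependent_pow θ
    rw [hθ] at h1
    exact h1
  let pb : Module.Basis (Fin 5) F L := basisOfLinearIndependentOfCardEqFinrank hli5 (by simp [hL])
  have hpb : ∀ i, pb i = θ ^ (i : ℕ) := fun i => by simp [pb]
  have hli : LinearIndependent L (fun i => ρ (b i)) := by
    rw [Fintype.linearIndependent_iff]
    intro g hg i
    have h1 : ∑ j : Fin 5, θ ^ (j : ℕ) • ρ (∑ i, pb.repr (g i) j • b i) = 0 := by
      have h2 : ∀ j : Fin 5, θ ^ (j : ℕ) • ρ (∑ i, pb.repr (g i) j • b i) =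
          ∑ i, (pb.repr (g i) j • θ ^ (j : ℕ)) • ρ (b i) := by
        intro j
        rw [map_sum, Finset.smul_sum]
        refine Finset.sum_congr rfl fun i _ => ?_
        rw [map_smul, smul_assoc, smul_comm]
      rw [Finset.sum_congr rfl fun j _ => h2 j, Finset.sum_comm]
      rw [← hg]
      refine Finset.sum_congr rfl fun i _ => ?_
      rw [← Finset.sum_smul]
      congr 1
      have h3 := pb.sum_repr (g i)
      simp only [hpb] at h3
      exact h3
    have h4 := hρ _ h1
    have h5 : ∀ j, pb.repr (g i) j = 0 := by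
      intro j
      exact (Fintype.linearIndependent_iff.1 b.linearIndependent) _ (h4 j) i
    have h6 : pb.repr (g i) = 0 := by
      ext j
      exact h5 j
    exact (LinearEquiv.map_eq_zero_iff pb.repr).1 h6
  have halg : Algebra.IsAlgebraic F L := Algebra.IsAlgebraic.of_finite F L
  let g : L →ₐ[F] Ω := IsAlgClosed.lift
  let φ : D →ₐ[F] M5 Ω := g.mapMatrix.comp ρ
  have hφ : ∀ d, φ d = (ρ d).map g := fun d => rfl
  refine ⟨φ, φ.toRingHom.injective, fun i => φ (b i), fun i => ⟨b i, rfl⟩, ?_, ?_⟩
  · exact linearIndependent_map (g : L →+* Ω) _ hli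
  · rintro _ ⟨d, rfl⟩
    refine ⟨fun i => b.repr d i, ?_⟩
    have h := b.sum_repr d
    change φ d = _
    conv_lhs => rw [← h]
    rw [map_sum]
    refine Finset.sum_congr rfl fun i _ => ?_
    rw [map_smul]

end Pool.Agent.Helper96.CY
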