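import Mathlib

/-!
PROJECT CY5, piece B4. The dimension count: there are `α, β, γ` in `D`, not all in `F`, and `c` in
`L` such that `ρ α + θ ρ β + θ^2 ρ γ - c` is strictly upper triangular.

Proof: the `F`-linear map `(D × D × D) × L → ({(i,j) | j ≤ i} → L)` has source of dimension
`75 + 5 = 80` and target of dimension `15 * 5 = 75`, so its kernel has dimension `≥ 5`. If all
elements of the kernel had `α, β, γ` in `F` then the kernel would inject into `F^3`
(`(α, β, γ) = (a, b, g)` forces `c = a + b θ + g θ^2` by looking at a diagonal entry), dimension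
`≤ 3`. Contradiction. (The hypothesis `hinj` is not needed.)
-/

namespace Pool.Agent.Helper96.CY

theorem exists_triangular {F L D : Type*} [Field F] [Field L] [Algebra F L] [DivisionRing D]
    [Algebra F D] (hdim : Module.finrank F D = 25) (hL : Module.finrank F L = 5)
    (θ : L) (ρ : D →ₐ[F] Matrix (Fin 5) (Fin 5) L) :
    ∃ (α β γ : D) (c : L),
      (¬ ∃ a b g : F, α = algebraMap F D a ∧ β = algebraMap F D b ∧ γ = algebraMap F D g) ∧
      ∀ i j : Fin 5, j ≤ i →
        (ρ α + θ • ρ β + θ ^ 2 • ρ γ - Matrix.scalar (Fin 5) c) i j = 0 := by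
  classical
  have : Module.Finite F D := Module.finite_of_finrank_pos (by rw [hdim]; norm_num)
  have : Module.Finite F L := Module.finite_of_finrank_pos (by rw [hL]; norm_num)
  let T : ((D × D × D) × L) →ₗ[F] ({p : Fin 5 × Fin 5 // p.2 ≤ p.1} → L) :=
    { toFun := fun x p => (ρ x.1.1 + θ • ρ x.1.2.1 + θ ^ 2 • ρ x.1.2.2 -
        Matrix.scalar (Fin 5) x.2) p.1.1 p.1.2
      map_add' := by
        intro x y
        funext p
        simp only [Prod.fst_add, Prod.snd_add, map_add, Matrix.add_apply, Matrix.sub_apply,
          Matrix.smul_apply, Pi.add_apply, smul_eq_mul]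
        ring
      map_smul' := by
        intro r x
        funext p
        have hs : ∀ l : L, r • l = algebraMap F L r * l := fun l => Algebra.smul_def r l
        simp only [Prod.smul_fst, Prod.smul_snd, map_smul, Matrix.add_apply, Matrix.sub_apply,
          Matrix.smul_apply, Pi.smul_apply, smul_eq_mul, RingHom.id_apply,
          Matrix.scalar_apply, Matrix.diagonal_apply, hs]
        split_ifs <;> ring }
  let J : (F × F × F) →ₗ[F] ((D × D × D) × L) :=
    { toFun := fun x => ((algebraMap F D x.1, algebraMap F D x.2.1, algebraMap F D x.2.2),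
        algebraMap F L x.1 + θ * algebraMap F L x.2.1 + θ ^ 2 * algebraMap F L x.2.2)
      map_add' := by
        intro x y
        simp only [Prod.fst_add, Prod.snd_add, map_add, Prod.mk_add_mk, Prod.mk.injEq,
          true_and]
        ring
      map_smul' := by
        intro r x
        have hs : ∀ l : L, r • l = algebraMap F L r * l := fun l => Algebra.smul_def r l
        have hs' : ∀ l : D, r • l = algebraMap F D r * l := fun l => Algebra.smul_def r l
        simp only [Prod.smul_fst, Prod.smul_snd, Prod.smul_mk, RingHom.id_apply, hs, hs',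
          map_mul, smul_eq_mul, Prod.mk.injEq, true_and]
        ring }
  by_contra hcon
  push Not at hcon
  have hker : LinearMap.ker T ≤ LinearMap.range J := by
    rintro ⟨⟨α, β, γ⟩, c⟩ hx
    have hx' : ∀ i j : Fin 5, j ≤ i →
        (ρ α + θ • ρ β + θ ^ 2 • ρ γ - Matrix.scalar (Fin 5) c) i j = 0 := by
      intro i j hij
      exact congrFun (LinearMap.mem_ker.1 hx) ⟨(i, j), hij⟩
    have hF : ∃ a b g : F, α = algebraMap F D a ∧ β = algebraMap F D b ∧ γ = algebraMap F D g := by
      by_contra h0
      obtain ⟨i, j, hij, hne⟩ := hcon α β γ c (by push Not at h0; exact h0)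
      exact hne (hx' i j hij)
    obtain ⟨a, b, g, rfl, rfl, rfl⟩ := hF
    refine ⟨(a, b, g), ?_⟩
    have h00 := hx' 0 0 le_rfl
    simp only [AlgHom.commutes, Matrix.algebraMap_eq_diagonal, Matrix.add_apply, Matrix.sub_apply,
      Matrix.smul_apply, Matrix.scalar_apply, Matrix.diagonal_apply_eq, Pi.algebraMap_apply,
      smul_eq_mul] at h00
    have hc : c = algebraMap F L a + θ * algebraMap F L b + θ ^ 2 * algebraMap F L g := by
      linear_combination -h00
    rw [hc]
    rfl
  have h1 := LinearMap.finrank_range_add_finrank_ker T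
  have h2 : Module.finrank F ((D × D × D) × L) = 80 := by
    rw [Module.finrank_prod, Module.finrank_prod, Module.finrank_prod, hdim, hL]
  have h3 : Module.finrank F ({p : Fin 5 × Fin 5 // p.2 ≤ p.1} → L) = 75 := by
    rw [Module.finrank_pi_fintype, Finset.sum_const, hL, Finset.card_univ]
    have : Fintype.card {p : Fin 5 × Fin 5 // p.2 ≤ p.1} = 15 := by decide
    rw [this]
    norm_num
  have h4 : Module.finrank F (LinearMap.range T) ≤ 75 := by
    rw [← h3]
    exact Submodule.finrank_le _
  have h5 : Module.finrank F (LinearMap.ker T) ≤ Module.finrank F (LinearMap.range J) :=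
    Submodule.finrank_mono hker
  have h6 : Module.finrank F (LinearMap.range J) ≤ Module.finrank F (F × F × F) :=
    LinearMap.finrank_range_le J
  have h7 : Module.finrank F (F × F × F) = 3 := by
    rw [Module.finrank_prod, Module.finrank_prod, Module.finrank_self]
  rw [h2] at h1
  omega

end Pool.Agent.Helper96.CY
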