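import Mathlib

/-!
PROJECT CY5, piece B5. A `5 × 5` matrix whose difference with a scalar matrix is strictly upper
triangular has characteristic polynomial `(X - c)^5` (any characteristic).

Proof: `Matrix.charpoly` is the determinant of an upper triangular matrix
(`Matrix.charpoly_of_upperTriangular` or `Matrix.det_of_upperTriangular`).
-/

namespace Pool.Agent.Helper96.CY

open Polynomial

theorem charpoly_of_upper {L : Type*} [Field L] (T : Matrix (Fin 5) (Fin 5) L) (c : L)
    (h : ∀ i j : Fin 5, j ≤ i → (T - Matrix.scalar (Fin 5) c) i j = 0) :
    T.charpoly = (X - C c) ^ 5 := by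
  have hT : T.BlockTriangular id := by
    intro i j hij
    have hij' : j < i := hij
    have h1 := h i j hij'.le
    rw [Matrix.sub_apply, Matrix.scalar_apply, Matrix.diagonal_apply_ne _ hij'.ne',
      sub_zero] at h1
    exact h1
  have hd : ∀ i, T i i = c := by
    intro i
    have h1 := h i i le_rfl
    rw [Matrix.sub_apply, Matrix.scalar_apply, Matrix.diagonal_apply_eq] at h1
    exact sub_eq_zero.1 h1
  rw [Matrix.charpoly_of_isUpperTriangular T hT]
  simp only [hd]
  rw [Finset.prod_const, Finset.card_univ, Fintype.card_fin]

end Pool.Agent.Helper96.CY
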