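import Mathlib
import Pool.Agent.Helper96.CY.B0

/-!
PROJECT CY5, piece B3. The characteristic polynomial of `ρ x` has coefficients in `F`.

Proof: if `x = algebraMap c` it is `(X - c)^5`. Otherwise let `n = (minpoly F x).natDegree`, which
divides 25 (B0) and is at least 2. The powers `1, x, ..., x^(n-1)` are linearly independent over
`F`, so by `hinj` the matrices `ρ x ^ i`, `i < n`, are linearly independent over `L`: write the
coefficients as `sum_j f_ij θ^j` (`θ` generates `L`: degree 5 and `finrank F L = 5`), then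
`sum_j θ^j • ρ (sum_i f_ij x^i) = 0`. By Cayley-Hamilton `n ≤ 5`, so `n = 5`; the minimal
polynomial of `ρ x` over `L` has degree `≥ 5`, divides the characteristic polynomial (degree 5) and
`(minpoly F x).map` (degree 5, all monic), so the last two are equal.
-/

namespace Pool.Agent.Helper96.CY

open Polynomial

theorem b3_coords {F L : Type*} [Field F] [Field L] [Algebra F L]
    (hL : Module.finrank F L = 5) (θ : L) (hθ : (minpoly F θ).natDegree = 5) (l : L) :
    ∃ f : Fin 5 → F, ∑ j : Fin 5, f j • θ ^ (j : ℕ) = l := by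
  have hli : LinearIndependent F (fun i : Fin (minpoly F θ).natDegree => θ ^ (i : ℕ)) :=
    linearIndependent_pow θ
  have hli5 : LinearIndependent F (fun i : Fin 5 => θ ^ (i : ℕ)) := by
    rw [hθ] at hli
    exact hli
  haveI : FiniteDimensional F L := FiniteDimensional.of_finrank_pos (by omega)
  have hsp := hli5.span_eq_top_of_card_eq_finrank' (by simp [hL])
  have hl : l ∈ Submodule.span F (Set.range (fun i : Fin 5 => θ ^ (i : ℕ))) := by
    rw [hsp]; trivial
  exact (Submodule.mem_span_range_iff_exists_fun F).1 hl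

theorem b3_key {F L D : Type*} [Field F] [Field L] [Algebra F L] [DivisionRing D]
    [Algebra F D] (hL : Module.finrank F L = 5)
    (θ : L) (hθ : (minpoly F θ).natDegree = 5)
    (ρ : D →ₐ[F] Matrix (Fin 5) (Fin 5) L)
    (hinj : ∀ d : Fin 5 → D, ∑ i : Fin 5, θ ^ (i : ℕ) • ρ (d i) = 0 → ∀ i, d i = 0)
    (x : D) (q : L[X]) (hq : aeval (ρ x) q = 0) (hd : q.natDegree < (minpoly F x).natDegree) :
    q = 0 := by
  choose f hf using fun i => b3_coords hL θ hθ (q.coeff i)
  set n := (minpoly F x).natDegree with hn
  have h0 : ∀ j : Fin 5, ∑ i ∈ Finset.range n, f i j • x ^ i = 0 := by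
    apply hinj
    rw [← hq, aeval_eq_sum_range' hd]
    have : ∀ j : Fin 5, θ ^ (j : ℕ) • ρ (∑ i ∈ Finset.range n, f i j • x ^ i)
        = ∑ i ∈ Finset.range n, (f i j • θ ^ (j : ℕ)) • (ρ x) ^ i := by
      intro j
      rw [map_sum, Finset.smul_sum]
      refine Finset.sum_congr rfl fun i _ => ?_
      rw [map_smul, map_pow, smul_comm, smul_assoc]
    rw [Finset.sum_congr rfl fun j _ => this j, Finset.sum_comm]
    refine Finset.sum_congr rfl fun i _ => ?_
    rw [← Finset.sum_smul, hf i]
  have h1 : ∀ j : Fin 5, ∀ i < n, f i j = 0 := by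
    intro j
    have hp : (∑ i ∈ Finset.range n, C (f i j) * X ^ i : F[X]) = 0 := by
      by_contra hne
      have ha : aeval x (∑ i ∈ Finset.range n, C (f i j) * X ^ i : F[X]) = 0 := by
        rw [map_sum, ← h0 j]
        refine Finset.sum_congr rfl fun i _ => ?_
        rw [map_mul, aeval_C, map_pow, aeval_X, Algebra.smul_def]
      have hdeg := minpoly.degree_le_of_ne_zero F x hne ha
      have hlt : (∑ i ∈ Finset.range n, C (f i j) * X ^ i : F[X]).degree < (n : ℕ) := by
        refine (degree_sum_le _ _).trans_lt ?_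
        rw [Finset.sup_lt_iff (WithBot.bot_lt_coe _)]
        intro i hi
        exact (degree_C_mul_X_pow_le _ _).trans_lt (by exact_mod_cast Finset.mem_range.1 hi)
      have hmp : minpoly F x ≠ 0 := by
        intro h
        rw [h] at hn
        simp at hn
        omega
      rw [degree_eq_natDegree hmp, ← hn] at hdeg
      exact absurd (hdeg.trans_lt hlt) (lt_irrefl _)
    intro i hi
    have := congrArg (fun p : F[X] => p.coeff i) hp
    simpa [finset_sum_coeff, coeff_C_mul, coeff_X_pow, hi] using this
  ext i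
  by_cases hi : i < n
  · rw [← hf i]
    simp [h1 _ i hi]
  · rw [coeff_eq_zero_of_natDegree_lt (by omega)]
    simp

theorem charpoly_mem {F L D : Type*} [Field F] [Field L] [Algebra F L] [DivisionRing D]
    [Algebra F D] (hdim : Module.finrank F D = 25) (hL : Module.finrank F L = 5)
    (θ : L) (hθ : (minpoly F θ).natDegree = 5)
    (ρ : D →ₐ[F] Matrix (Fin 5) (Fin 5) L)
    (hinj : ∀ d : Fin 5 → D, ∑ i : Fin 5, θ ^ (i : ℕ) • ρ (d i) = 0 → ∀ i, d i = 0)
    (x : D) : ∃ P : F[X], (ρ x).charpoly = P.map (algebraMap F L) := by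
  haveI : FiniteDimensional F D := FiniteDimensional.of_finrank_pos (by omega)
  have hint : IsIntegral F x := Algebra.IsIntegral.isIntegral x
  have hdvd : (minpoly F x).natDegree ∣ 25 := hdim ▸ natDegree_minpoly_dvd x
  have hpos : 0 < (minpoly F x).natDegree := minpoly.natDegree_pos hint
  by_cases h1 : (minpoly F x).natDegree = 1
  · obtain ⟨c, hc⟩ := minpoly.natDegree_eq_one_iff.1 h1
    refine ⟨(X - C c) ^ 5, ?_⟩
    rw [← hc, AlgHom.commutes, Matrix.algebraMap_eq_diagonal, Matrix.charpoly_diagonal]
    simp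
  · have h5 : 5 ≤ (minpoly F x).natDegree := by
      have : (minpoly F x).natDegree ≤ 25 := Nat.le_of_dvd (by norm_num) hdvd
      generalize (minpoly F x).natDegree = n at *
      interval_cases n <;> omega
    have hmon : (minpoly F x).Monic := minpoly.monic hint
    have hq5 : (minpoly F x).natDegree ≤ (minpoly L (ρ x)).natDegree := by
      by_contra hlt
      push_neg at hlt
      have := b3_key hL θ hθ ρ hinj x _ (minpoly.aeval L (ρ x)) hlt
      exact minpoly.ne_zero (Algebra.IsIntegral.isIntegral (ρ x)) this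
    have hc : minpoly L (ρ x) ∣ (ρ x).charpoly := Matrix.minpoly_dvd_charpoly _
    have hm : minpoly L (ρ x) ∣ (minpoly F x).map (algebraMap F L) := by
      apply minpoly.dvd
      rw [aeval_map_algebraMap, aeval_algHom_apply, minpoly.aeval, map_zero]
    have hcn : (ρ x).charpoly.natDegree = 5 := by simp
    have hmm : (minpoly L (ρ x)).Monic := minpoly.monic (Algebra.IsIntegral.isIntegral (ρ x))
    have e1 : (ρ x).charpoly = minpoly L (ρ x) :=
      eq_of_monic_of_dvd_of_natDegree_le hmm (Matrix.charpoly_monic _) hc (by omega)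
    have hle : (minpoly L (ρ x)).natDegree ≤ 5 := by
      rw [← e1]; omega
    have e2 : (minpoly F x).map (algebraMap F L) = minpoly L (ρ x) := by
      apply eq_of_monic_of_dvd_of_natDegree_le hmm (hmon.map _) hm
      rw [hmon.natDegree_map]
      exact hq5
    exact ⟨minpoly F x, by rw [e1, e2]⟩

end Pool.Agent.Helper96.CY
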