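import Mathlib

/-!
PROJECT CY5, piece B6. Coefficients of the characteristic polynomial along a polynomial family of
matrices: degree bound, values, top coefficient.

Proof: `P = ((∑ i ∈ range (d+1), (C: L[X] scalar X^i) • (M i).map C).charpoly).coeff (5 - k)`, a
polynomial in the parameter. The `coeff (5 - k)` of the charpoly of a `5 × 5` matrix `N` is, up to
sign, the sum of the principal `k × k` minors; a convenient way to get degree and top coefficient:
let `N` over `L[X]` have all entries of degree `≤ d`. In `det (Y - N)`, expand over permutations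
(`Matrix.det_apply`, `Matrix.charmatrix`); every term of `Y`-degree `5 - k` is a product of `k`
entries of `N` (up to sign), so has `X`-degree `≤ d * k`, and its coefficient at `X^(d*k)` is the
same term for the matrix of top coefficients. Alternative: weighted homogeneity: for
`N' = sum_i u^(d-i) v^i M i` over `L[u, v]` charpoly coefficients are homogeneous of degree
`d * k`; or reverse polynomials: `P.reverse`. Any proof is fine.
-/

namespace Pool.Agent.Helper96.CY

open Polynomial

section b6

variable {L : Type*} [Field L]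

/-- `f` has weighted degree `≤ 0` (weight of `X` is `1`, of the outer variable `-d`) and `g` is its
part of weighted degree `0` -/
private def b6R (d : ℕ) (f : L[X][X]) (g : L[X]) : Prop :=
  ∀ b, (f.coeff b).natDegree ≤ d * b ∧ (f.coeff b).coeff (d * b) = g.coeff b

private theorem b6R_zero (d : ℕ) : b6R d (0 : L[X][X]) 0 := by
  intro b
  simp

private theorem b6R_one (d : ℕ) : b6R d (1 : L[X][X]) 1 := by
  intro b
  rw [coeff_one, coeff_one]
  by_cases hb : b = 0
  · subst hb
    simp
  · simp [hb]

private theorem b6R_add (d : ℕ) {f f' : L[X][X]} {g g' : L[X]} (h : b6R d f g)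
    (h' : b6R d f' g') : b6R d (f + f') (g + g') := by
  intro b
  rw [coeff_add, coeff_add, coeff_add]
  refine ⟨natDegree_add_le_of_degree_le (h b).1 (h' b).1, ?_⟩
  rw [(h b).2, (h' b).2]

private theorem b6R_neg (d : ℕ) {f : L[X][X]} {g : L[X]} (h : b6R d f g) :
    b6R d (-f) (-g) := by
  intro b
  rw [coeff_neg, coeff_neg, coeff_neg, natDegree_neg]
  exact ⟨(h b).1, by rw [(h b).2]⟩

private theorem b6R_mul (d : ℕ) {f f' : L[X][X]} {g g' : L[X]} (h : b6R d f g)
    (h' : b6R d f' g') : b6R d (f * f') (g * g') := by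
  intro b
  rw [coeff_mul, coeff_mul]
  constructor
  · apply natDegree_sum_le_of_forall_le
    intro x hx
    have hx' := Finset.HasAntidiagonal.mem_antidiagonal.1 hx
    refine natDegree_mul_le.trans ?_
    rw [← hx', mul_add]
    exact add_le_add (h x.1).1 (h' x.2).1
  · rw [finsetSum_coeff]
    refine Finset.sum_congr rfl fun x hx => ?_
    have hx' := Finset.HasAntidiagonal.mem_antidiagonal.1 hx
    rw [← hx', mul_add, coeff_mul_add_eq_of_natDegree_le (h x.1).1 (h' x.2).1, (h x.1).2, (h' x.2).2]

private theorem b6R_sum (d : ℕ) {ι : Type*} (s : Finset ι) (f : ι → L[X][X]) (g : ι → L[X])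
    (h : ∀ i ∈ s, b6R d (f i) (g i)) : b6R d (∑ i ∈ s, f i) (∑ i ∈ s, g i) := by
  classical
  induction s using Finset.induction_on with
  | empty => exact b6R_zero d
  | insert a s ha ih =>
    rw [Finset.sum_insert ha, Finset.sum_insert ha]
    exact b6R_add d (h a (Finset.mem_insert_self a s))
      (ih fun i hi => h i (Finset.mem_insert_of_mem hi))

private theorem b6R_prod (d : ℕ) {ι : Type*} (s : Finset ι) (f : ι → L[X][X]) (g : ι → L[X])
    (h : ∀ i ∈ s, b6R d (f i) (g i)) : b6R d (∏ i ∈ s, f i) (∏ i ∈ s, g i) := by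
  classical
  induction s using Finset.induction_on with
  | empty => exact b6R_one d
  | insert a s ha ih =>
    rw [Finset.prod_insert ha, Finset.prod_insert ha]
    exact b6R_mul d (h a (Finset.mem_insert_self a s))
      (ih fun i hi => h i (Finset.mem_insert_of_mem hi))

private theorem b6R_det (d : ℕ) (A : Matrix (Fin 5) (Fin 5) L[X][X])
    (B : Matrix (Fin 5) (Fin 5) L[X]) (h : ∀ i j, b6R d (A i j) (B i j)) :
    b6R d A.det B.det := by
  rw [Matrix.det_apply, Matrix.det_apply]
  apply b6R_sum
  intro σ _
  have hp : b6R d (∏ i, A (σ i) i) (∏ i, B (σ i) i) := b6R_prod d _ _ _ fun i _ => h _ _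
  rcases Int.units_eq_one_or (Equiv.Perm.sign σ) with hs | hs
  · rw [hs, one_smul, one_smul]
    exact hp
  · rw [hs, Units.neg_smul, Units.neg_smul, one_smul, one_smul]
    exact b6R_neg d hp

private theorem b6R_XC (d : ℕ) (f : L[X]) (m : L) (h1 : f.natDegree ≤ d) (h2 : f.coeff d = m) :
    b6R d ((X : L[X][X]) * C f) (X * C m) := by
  intro b
  cases b with
  | zero => simp
  | succ b =>
    rw [coeff_X_mul, coeff_X_mul, coeff_C, coeff_C]
    by_cases hb : b = 0
    · subst hb
      rw [if_pos rfl, if_pos rfl, zero_add, mul_one]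
      exact ⟨h1, h2⟩
    · rw [if_neg hb, if_neg hb]
      simp

private theorem b6_rev {R : Type*} [CommRing R] [Nontrivial R] (A : Matrix (Fin 5) (Fin 5) R)
    (k : ℕ) (hk : k ≤ 5) : A.charpoly.coeff (5 - k) = A.charpolyRev.coeff k := by
  rw [← Matrix.reverse_charpoly, coeff_reverse, Matrix.charpoly_natDegree_eq_dim,
    Fintype.card_fin, revAt_le hk]

end b6

theorem charpoly_pencil {L : Type*} [Field L] (d k : ℕ) (hk : k ≤ 5)
    (M : ℕ → Matrix (Fin 5) (Fin 5) L) :
    ∃ P : L[X], P.natDegree ≤ d * k ∧
      (∀ s, P.eval s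
        = (∑ i ∈ Finset.range (d + 1), s ^ i • M i).charpoly.coeff (5 - k)) ∧
      P.coeff (d * k) = (M d).charpoly.coeff (5 - k) := by
  let N : Matrix (Fin 5) (Fin 5) L[X] :=
    ∑ i ∈ Finset.range (d + 1), (X ^ i : L[X]) • (M i).map C
  have hNe : ∀ a b, N a b = ∑ i ∈ Finset.range (d + 1), X ^ i * C (M i a b) := by
    intro a b
    simp only [N, Matrix.sum_apply, Matrix.smul_apply, Matrix.map_apply, smul_eq_mul]
  have hdeg : ∀ a b, (N a b).natDegree ≤ d := by
    intro a b
    rw [hNe]
    apply natDegree_sum_le_of_forall_le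
    intro i hi
    have hi' := Finset.mem_range.1 hi
    refine (natDegree_mul_C_le _ _).trans ?_
    rw [natDegree_X_pow]
    omega
  have hcoef : ∀ a b, (N a b).coeff d = M d a b := by
    intro a b
    rw [hNe, finsetSum_coeff, Finset.sum_eq_single d]
    · rw [coeff_mul_C, coeff_X_pow, if_pos rfl, one_mul]
    · intro i _ hi
      rw [coeff_mul_C, coeff_X_pow, if_neg (Ne.symm hi), zero_mul]
    · intro h
      exact absurd (Finset.mem_range.2 (Nat.lt_succ_self d)) h
  have hR : b6R d N.charpolyRev (M d).charpolyRev := by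
    unfold Matrix.charpolyRev
    apply b6R_det
    intro i j
    rw [Matrix.sub_apply, Matrix.sub_apply, Matrix.smul_apply, Matrix.smul_apply,
      Matrix.map_apply, Matrix.map_apply, smul_eq_mul, smul_eq_mul, sub_eq_add_neg,
      sub_eq_add_neg]
    apply b6R_add
    · rw [Matrix.one_apply, Matrix.one_apply]
      split_ifs
      · exact b6R_one d
      · exact b6R_zero d
    · exact b6R_neg d (b6R_XC d _ _ (hdeg i j) (hcoef i j))
  refine ⟨N.charpoly.coeff (5 - k), ?_, ?_, ?_⟩
  · rw [b6_rev N k hk]
    exact (hR k).1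
  · intro s
    have h1 : N.map (evalRingHom s) = ∑ i ∈ Finset.range (d + 1), s ^ i • M i := by
      ext a b
      rw [Matrix.map_apply, hNe, map_sum, Matrix.sum_apply]
      refine Finset.sum_congr rfl fun i _ => ?_
      rw [map_mul, map_pow, Matrix.smul_apply, smul_eq_mul, coe_evalRingHom, eval_X, eval_C]
    rw [← h1, Matrix.charpoly_map, coeff_map, coe_evalRingHom]
  · rw [b6_rev N k hk, b6_rev (M d) k hk]
    exact (hR k).2

end Pool.Agent.Helper96.CY
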