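import Mathlib

/-!
PROJECT CY5, piece B7. Three facts on polynomials.
(1) a polynomial over `L` taking values in the infinite subfield `F` on `F` has coefficients in
`F` (Lagrange interpolation at `natDegree + 1` points of `F`: `Lagrange.interpolate`, both sides
agree at enough points). (2), (3): divisibility by the minimal polynomial of degree 5.
-/

namespace Pool.Agent.Helper96.CY

open Polynomial

theorem exists_map_eq {F L : Type*} [Field F] [Infinite F] [Field L] [Algebra F L] (P : L[X])
    (h : ∀ s : F, ∃ r : F, P.eval (algebraMap F L s) = algebraMap F L r) :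
    ∃ Q : F[X], P = Q.map (algebraMap F L) := by
  classical
  choose r hr using h
  let v : ℕ → F := Infinite.natEmbedding F
  have hv : Function.Injective v := (Infinite.natEmbedding F).injective
  let s : Finset ℕ := Finset.range (P.natDegree + 1)
  have hvs : Set.InjOn v s := hv.injOn
  let Q : F[X] := Lagrange.interpolate s v (fun i => r (v i))
  refine ⟨Q, ?_⟩
  have hinj : Function.Injective (algebraMap F L) := (algebraMap F L).injective
  refine Polynomial.eq_of_degrees_lt_of_eval_index_eq (v := fun i => algebraMap F L (v i)) s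
    ?_ ?_ ?_ ?_
  · exact (hinj.comp hv).injOn
  · rw [Finset.card_range]
    exact lt_of_le_of_lt Polynomial.degree_le_natDegree (by exact_mod_cast Nat.lt_succ_self _)
  · rw [Polynomial.degree_map]
    exact Lagrange.degree_interpolate_lt _ hvs
  · intro i hi
    rw [hr, Polynomial.eval_map_algebraMap, Polynomial.aeval_algebraMap_apply]
    have h1 : Polynomial.aeval (v i) Q = r (v i) := by
      rw [Polynomial.coe_aeval_eq_eval]
      exact Lagrange.eval_interpolate_at_node _ hvs hi
    rw [h1]

theorem eq_zero_of_small {F L : Type*} [Field F] [Field L] [Algebra F L] {θ : L}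
    (hθ : (minpoly F θ).natDegree = 5) {Q : F[X]} (hQ : aeval θ Q = 0) (hd : Q.natDegree < 5) :
    Q = 0 := by
  refine Polynomial.eq_zero_of_dvd_of_natDegree_lt (minpoly.dvd F θ hQ) ?_
  rw [hθ]
  exact hd

theorem eq_mul_linear {F L : Type*} [Field F] [Field L] [Algebra F L] {θ : L}
    (hθ : (minpoly F θ).natDegree = 5) {Q : F[X]} (hQ : aeval θ Q = 0) (hd : Q.natDegree ≤ 6) :
    ∃ a b : F, Q = minpoly F θ * (C a * X + C b) := by
  obtain ⟨R, hR⟩ := minpoly.dvd F θ hQ
  by_cases h0 : R = 0
  · refine ⟨0, 0, ?_⟩
    rw [hR, h0]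
    simp
  have hm : minpoly F θ ≠ 0 := by
    intro h
    rw [h, Polynomial.natDegree_zero] at hθ
    omega
  have h1 : R.natDegree ≤ 1 := by
    have h2 := Polynomial.natDegree_mul hm h0
    rw [← hR, hθ] at h2
    omega
  obtain ⟨a, b, hab⟩ := Polynomial.exists_eq_X_add_C_of_natDegree_le_one h1
  exact ⟨a, b, by rw [hR, hab]⟩

end Pool.Agent.Helper96.CY
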