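import Mathlib
import Pool.Agent.Helper96.CY.B3
import Pool.Agent.Helper96.CY.B6
import Pool.Agent.Helper96.CY.B7

/-!
PROJECT CY5, piece B9. Coefficients of the reduced characteristic polynomial along a curve in
`D[s]`, as polynomials over `F`.

Proof: B6 with `M i = ρ (δ i)` gives `P` over `L`; on `F` its values are coefficients of
`(ρ (sum s^i • δ i)).charpoly`, which are in `F` by B3; so `P = Q.map` by B7 (1). `natDegree` is
preserved by `map` (injective).
-/

namespace Pool.Agent.Helper96.CY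

open Polynomial

theorem curve_coeff {F L D : Type*} [Field F] [Infinite F] [Field L] [Algebra F L]
    [DivisionRing D] [Algebra F D] (hdim : Module.finrank F D = 25)
    (hL : Module.finrank F L = 5) (θ : L) (hθ : (minpoly F θ).natDegree = 5)
    (ρ : D →ₐ[F] Matrix (Fin 5) (Fin 5) L)
    (hinj : ∀ d : Fin 5 → D, ∑ i : Fin 5, θ ^ (i : ℕ) • ρ (d i) = 0 → ∀ i, d i = 0)
    (d k : ℕ) (hk : k ≤ 5) (δ : ℕ → D) :
    ∃ Q : F[X], Q.natDegree ≤ d * k ∧
      (∀ s : F, algebraMap F L (Q.eval s)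
        = (ρ (∑ i ∈ Finset.range (d + 1), s ^ i • δ i)).charpoly.coeff (5 - k)) ∧
      (aeval θ Q = (∑ i ∈ Finset.range (d + 1), θ ^ i • ρ (δ i)).charpoly.coeff (5 - k)) ∧
      algebraMap F L (Q.coeff (d * k)) = (ρ (δ d)).charpoly.coeff (5 - k) := by
  obtain ⟨P, hP1, hP2, hP3⟩ := charpoly_pencil d k hk (fun i => ρ (δ i))
  have hval : ∀ s : F, P.eval (algebraMap F L s) =
      (ρ (∑ i ∈ Finset.range (d + 1), s ^ i • δ i)).charpoly.coeff (5 - k) := by
    intro s
    rw [hP2 (algebraMap F L s), map_sum]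
    congr 2
    refine Finset.sum_congr rfl fun i _ => ?_
    rw [map_smul, ← map_pow, algebraMap_smul]
  have hex : ∀ s : F, ∃ r : F, P.eval (algebraMap F L s) = algebraMap F L r := by
    intro s
    obtain ⟨P', hP'⟩ := charpoly_mem hdim hL θ hθ ρ hinj
      (∑ i ∈ Finset.range (d + 1), s ^ i • δ i)
    exact ⟨P'.coeff (5 - k), by rw [hval s, hP', coeff_map]⟩
  obtain ⟨Q, hQ⟩ := exists_map_eq P hex
  refine ⟨Q, ?_, fun s => ?_, ?_, ?_⟩
  · rw [hQ, natDegree_map] at hP1
    exact hP1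
  · rw [← hval s, hQ, eval_map, eval₂_at_apply]
  · rw [← hP2 θ, hQ, eval_map_algebraMap]
  · rw [hQ, coeff_map] at hP3
    exact hP3

end Pool.Agent.Helper96.CY
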