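import Mathlib
import Pool.Agent.Helper96.CY.B4
import Pool.Agent.Helper96.CY.B5
import Pool.Agent.Helper96.CY.B9

/-!
PROJECT CY5, piece B10. The conic trick: an element outside `F` with `e_1 = e_2 = e_3 = 0`, in
EVERY characteristic.

Call `x` good if the coefficients 4, 3, 2 of `(ρ x).charpoly` vanish; assume no element outside `F`
is good. Call `T` in `M_5(L)` flat if for some `c` in `L` the matrix `T - scalar c` is strictly upper
triangular (zero for `j ≤ i`) and moreover `(5 : L) = 0` or `c = 0`; then by B5 the coefficients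
4, 3, 2, 1 of `T.charpoly = (X - c)^5` vanish. Flat matrices form an `L`-subspace; if `5 = 0` in `L`
it contains the scalars.
(i) LINE LEMMA: `ρ α + θ • ρ β` is not flat unless `α`, `β` are both in `F`: by B9 with `d = 1`,
`k = 1, 2, 3` the polynomial `Q` has degree `≤ k < 5` and kills `θ`, so `Q = 0` (B7 (2)); its top
coefficient gives that `β` is good, so `β` is in `F`; `Q.eval 0 = 0` gives that `α` is good, so in `F`.
(ii) There are `α β γ` in `D`, not all in `F`, with `T = ρ α + θ • ρ β + θ^2 • ρ γ` flat: B4 gives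
`α β γ c`; if `(5 : L) = 0` done. Otherwise replace `α` by `α - algebraMap (tr α / 5)` etc., where
`tr` is the reduced trace, minus coefficient 4 of `(ρ α).charpoly`, in `F` by B3 (equivalently
`Matrix.trace (ρ α)`, `Matrix.trace_eq_neg_charpoly_coeff`): the new `T` differs by a
scalar matrix, has trace 0, and its scalar `c'` satisfies `5 c' = trace = 0`.
(iii) If `γ` is in `F`: if `5 = 0`, `ρ α + θ • ρ β` is flat (subtract a scalar matrix); if `5 ≠ 0`,
`γ` has trace zero after the normalisation, so `γ = 0` and the same holds; contradiction to (i)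
unless `α, β` in `F`, contradiction to the choice. If `γ` is not in `F`: B9 with `d = 2`: `k = 1, 2`:
`Q = 0` (degrees 2, 4 < 5); `k = 3`: `Q = minpoly * (a X + b)` (B7 (3)), its coefficient 6 is `a`
(minpoly is monic of degree 5) and equals the coefficient for `γ`; `γ` is not good but its
`k = 1, 2` coefficients vanish (top coefficients), so `a ≠ 0`. With `s0 = -b/a` the element
`C(s0) = α + s0 β + s0^2 γ` is good, so equals some `f0` in `F`; if `5 ≠ 0` then `f0 = 0` (trace zero).
Then `α + θ β + θ^2 γ - f0 = (θ - s0) (β + s0 γ + θ γ)` and `θ ≠ s0`, so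
`ρ (β + s0 γ) + θ • ρ γ` is flat: contradiction to (i) as `γ` is not in `F`.
-/

namespace Pool.Agent.Helper96.CY

open Polynomial

theorem exists_good_five {F L D : Type*} [Field F] [CharP F 5] [Infinite F] [Field L] [Algebra F L]
    [DivisionRing D] [Algebra F D] (hdim : Module.finrank F D = 25)
    (hL : Module.finrank F L = 5) (θ : L) (hθ : (minpoly F θ).natDegree = 5)
    (ρ : D →ₐ[F] Matrix (Fin 5) (Fin 5) L)
    (hinj : ∀ d : Fin 5 → D, ∑ i : Fin 5, θ ^ (i : ℕ) • ρ (d i) = 0 → ∀ i, d i = 0) :
    ∃ x : D, (∀ c : F, x ≠ algebraMap F D c) ∧ (ρ x).charpoly.coeff 4 = 0 ∧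
      (ρ x).charpoly.coeff 3 = 0 ∧ (ρ x).charpoly.coeff 2 = 0 := by
  have hchL : CharP L 5 := charP_of_injective_algebraMap (algebraMap F L).injective 5
  by_contra hcon
  have hno : ∀ x : D, (ρ x).charpoly.coeff 4 = 0 → (ρ x).charpoly.coeff 3 = 0 →
      (ρ x).charpoly.coeff 2 = 0 → ∃ c : F, x = algebraMap F D c := by
    intro x h4 h3 h2
    by_contra hx
    push Not at hx
    exact hcon ⟨x, hx, h4, h3, h2⟩
  have hprime : Fact (Nat.Prime 5) := ⟨Nat.prime_five⟩
  have hco : ∀ (c : L) (m : ℕ), m ≠ 0 → m ≠ 5 → ((X - C c) ^ 5 : L[X]).coeff m = 0 := by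
    intro c m h0 h5
    rw [sub_pow_char, ← C_pow, coeff_sub, coeff_X_pow, coeff_C, if_neg h5, if_neg h0, sub_zero]
  -- the line lemma
  have hline : ∀ (α β : D) (c : L), (∀ i j : Fin 5, j ≤ i →
      (ρ α + θ • ρ β - Matrix.scalar (Fin 5) c) i j = 0) →
      (∃ a : F, α = algebraMap F D a) ∧ ∃ b : F, β = algebraMap F D b := by
    intro α β c h
    have hch := charpoly_of_upper _ c h
    have hsumθ : ∑ i ∈ Finset.range (1 + 1), θ ^ i • ρ ((fun i : ℕ => if i = 0 then α else β) i) =
        ρ α + θ • ρ β := by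
      simp [Finset.sum_range_succ]
    have hsum0 : ∑ i ∈ Finset.range (1 + 1), (0 : F) ^ i • (fun i : ℕ => if i = 0 then α else β) i =
        α := by
      simp [Finset.sum_range_succ]
    have key : ∀ k, 1 ≤ k → k ≤ 3 → (ρ β).charpoly.coeff (5 - k) = 0 ∧
        (ρ α).charpoly.coeff (5 - k) = 0 := by
      intro k hk1 hk3
      obtain ⟨Q, hQd, hQe, hQθ, hQt⟩ := curve_coeff hdim hL θ hθ ρ hinj 1 k (by omega)
        (fun i : ℕ => if i = 0 then α else β)
      have hQ0 : Q = 0 := by
        apply eq_zero_of_small hθ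
        · rw [hQθ, hsumθ, hch]
          exact hco c _ (by omega) (by omega)
        · omega
      constructor
      · rw [hQ0, coeff_zero, map_zero] at hQt
        exact hQt.symm
      · have h0 := hQe 0
        rw [hQ0, eval_zero, map_zero, hsum0] at h0
        exact h0.symm
    exact ⟨hno α (key 1 (by omega) (by omega)).2 (key 2 (by omega) (by omega)).2
      (key 3 (by omega) (by omega)).2, hno β (key 1 (by omega) (by omega)).1
      (key 2 (by omega) (by omega)).1 (key 3 (by omega) (by omega)).1⟩
  obtain ⟨α, β, γ, c, hnot, htri⟩ := exists_triangular hdim hL θ ρ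
  have hch := charpoly_of_upper _ c htri
  have hρF : ∀ (g : F) (i j : Fin 5), ρ (algebraMap F D g) i j =
      if i = j then algebraMap F L g else 0 := by
    intro g i j
    rw [AlgHom.commutes, Matrix.algebraMap_matrix_apply]
  by_cases hγ : ∃ g : F, γ = algebraMap F D g
  · obtain ⟨g, hg⟩ := hγ
    have h1 : ∀ i j : Fin 5, j ≤ i →
        (ρ α + θ • ρ β - Matrix.scalar (Fin 5) (c - θ ^ 2 * algebraMap F L g)) i j = 0 := by
      intro i j hij
      have h2 := htri i j hij
      simp only [Matrix.sub_apply, Matrix.add_apply, Matrix.smul_apply, Matrix.scalar_apply,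
        Matrix.diagonal_apply, hg, hρF, smul_eq_mul] at h2 ⊢
      by_cases hij' : i = j
      · simp only [hij', if_true] at h2 ⊢
        linear_combination h2
      · simp only [hij', if_false] at h2 ⊢
        linear_combination h2
    obtain ⟨⟨a, ha⟩, ⟨b, hb⟩⟩ := hline α β _ h1
    exact hnot ⟨a, b, g, ha, hb, hg⟩
  · have hsumθ : ∑ i ∈ Finset.range (2 + 1),
        θ ^ i • ρ ((fun i : ℕ => if i = 0 then α else if i = 1 then β else γ) i) =
        ρ α + θ • ρ β + θ ^ 2 • ρ γ := by
      simp [Finset.sum_range_succ]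
    have hsumF : ∀ s : F, ∑ i ∈ Finset.range (2 + 1),
        s ^ i • (fun i : ℕ => if i = 0 then α else if i = 1 then β else γ) i =
        α + s • β + s ^ 2 • γ := by
      intro s
      simp [Finset.sum_range_succ]
    have key : ∀ k, 1 ≤ k → k ≤ 2 → (ρ γ).charpoly.coeff (5 - k) = 0 ∧
        ∀ s : F, (ρ (α + s • β + s ^ 2 • γ)).charpoly.coeff (5 - k) = 0 := by
      intro k hk1 hk2
      obtain ⟨Q, hQd, hQe, hQθ, hQt⟩ := curve_coeff hdim hL θ hθ ρ hinj 2 k (by omega)
        (fun i : ℕ => if i = 0 then α else if i = 1 then β else γ)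
      have hQ0 : Q = 0 := by
        apply eq_zero_of_small hθ
        · rw [hQθ, hsumθ, hch]
          exact hco c _ (by omega) (by omega)
        · omega
      constructor
      · rw [hQ0, coeff_zero, map_zero] at hQt
        exact hQt.symm
      · intro s
        have h0 := hQe s
        rw [hQ0, eval_zero, map_zero, hsumF] at h0
        exact h0.symm
    obtain ⟨Q, hQd, hQe, hQθ, hQt⟩ := curve_coeff hdim hL θ hθ ρ hinj 2 3 (by omega)
      (fun i : ℕ => if i = 0 then α else if i = 1 then β else γ)
    obtain ⟨a, b, hab⟩ := eq_mul_linear hθ (Q := Q) (by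
      rw [hQθ, hsumθ, hch]
      exact hco c _ (by omega) (by omega)) (by omega)
    have hint : IsIntegral F θ := by
      by_contra h
      rw [minpoly.eq_zero h, natDegree_zero] at hθ
      omega
    have hmon : (minpoly F θ).coeff 5 = 1 := by
      have := (minpoly.monic hint).coeff_natDegree
      rwa [hθ] at this
    have hcoef : Q.coeff 6 = a := by
      have h6 : (minpoly F θ).coeff 6 = 0 := coeff_eq_zero_of_natDegree_lt (by omega)
      rw [hab, mul_add, ← mul_assoc, coeff_add, coeff_mul_X, coeff_mul_C, coeff_mul_C, hmon, h6]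
      ring
    have ha0 : a ≠ 0 := by
      intro ha
      apply hγ
      apply hno γ (key 1 (by omega) (by omega)).1 (key 2 (by omega) (by omega)).1
      have h0 : algebraMap F L (Q.coeff 6) = (ρ γ).charpoly.coeff 2 := hQt
      rw [← h0, hcoef, ha, map_zero]
    obtain ⟨f0, hf0⟩ := hno (α + (-b / a) • β + (-b / a) ^ 2 • γ)
      ((key 1 (by omega) (by omega)).2 _) ((key 2 (by omega) (by omega)).2 _) (by
        have h0 := hQe (-b / a)
        rw [hsumF] at h0
        rw [← h0, hab, eval_mul, eval_add, eval_mul, eval_C, eval_C, eval_X]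
        have : a * (-b / a) + b = 0 := by field_simp; ring
        rw [this, mul_zero, map_zero])
    generalize hs : -b / a = s at hf0
    have hne : θ - algebraMap F L s ≠ 0 := by
      intro h0
      have h1 : θ = algebraMap F L s := sub_eq_zero.1 h0
      rw [h1, minpoly.eq_X_sub_C, natDegree_X_sub_C] at hθ
      omega
    have hα : α = algebraMap F D f0 - s • β - s ^ 2 • γ := by
      rw [← hf0]; abel
    have h1 : ∀ i j : Fin 5, j ≤ i → (ρ (β + s • γ) + θ • ρ γ -
        Matrix.scalar (Fin 5) ((c - algebraMap F L f0) / (θ - algebraMap F L s))) i j = 0 := by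
      intro i j hij
      have h2 := htri i j hij
      apply mul_left_cancel₀ hne
      rw [mul_zero]
      have hsm : ∀ (u : F) (x : L), u • x = algebraMap F L u * x := fun u x =>
        Algebra.smul_def u x
      simp only [hα, map_sub, map_add, map_smul, Matrix.sub_apply, Matrix.add_apply,
        Matrix.smul_apply, Matrix.scalar_apply, Matrix.diagonal_apply, hρF, smul_eq_mul,
        hsm, map_pow] at h2 ⊢
      by_cases hij' : i = j
      · simp only [hij', if_true] at h2 ⊢
        field_simp
        linear_combination h2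
      · simp only [hij', if_false] at h2 ⊢
        linear_combination h2
    exact hγ (hline _ _ _ h1).2

theorem exists_good_ne_five {F L D : Type*} [Field F] [Infinite F] [Field L] [Algebra F L]
    [DivisionRing D] [Algebra F D] (hF5 : (5 : F) ≠ 0) (hdim : Module.finrank F D = 25)
    (hL : Module.finrank F L = 5) (θ : L) (hθ : (minpoly F θ).natDegree = 5)
    (ρ : D →ₐ[F] Matrix (Fin 5) (Fin 5) L)
    (hinj : ∀ d : Fin 5 → D, ∑ i : Fin 5, θ ^ (i : ℕ) • ρ (d i) = 0 → ∀ i, d i = 0) :
    ∃ x : D, (∀ c : F, x ≠ algebraMap F D c) ∧ (ρ x).charpoly.coeff 4 = 0 ∧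
      (ρ x).charpoly.coeff 3 = 0 ∧ (ρ x).charpoly.coeff 2 = 0 := by
  have hL5 : (5 : L) ≠ 0 := by
    intro h
    apply hF5
    apply (algebraMap F L).injective
    rw [map_ofNat, h, map_zero]
  by_contra hcon
  have hno : ∀ x : D, (ρ x).charpoly.coeff 4 = 0 → (ρ x).charpoly.coeff 3 = 0 →
      (ρ x).charpoly.coeff 2 = 0 → ∃ c : F, x = algebraMap F D c := by
    intro x h4 h3 h2
    by_contra hx
    push Not at hx
    exact hcon ⟨x, hx, h4, h3, h2⟩
  have hρF : ∀ (g : F) (i j : Fin 5), ρ (algebraMap F D g) i j =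
      if i = j then algebraMap F L g else 0 := by
    intro g i j
    rw [AlgHom.commutes, Matrix.algebraMap_matrix_apply]
  -- reduced traces
  have htr : ∀ x : D, ∃ t : F, Matrix.trace (ρ x) = algebraMap F L t := by
    intro x
    obtain ⟨P, hP⟩ := charpoly_mem hdim hL θ hθ ρ hinj x
    refine ⟨- P.coeff 4, ?_⟩
    rw [Matrix.trace_eq_neg_charpoly_coeff, hP, Fintype.card_fin, coeff_map, map_neg]
  have htrF : ∀ g : F, Matrix.trace (ρ (algebraMap F D g)) = 5 * algebraMap F L g := by
    intro g
    rw [Matrix.trace]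
    simp only [Matrix.diag_apply, hρF, if_true]
    rw [Finset.sum_const, Finset.card_univ, Fintype.card_fin, nsmul_eq_mul]
    norm_num
  have hnorm : ∀ x : D, ∃ (x' : D) (t : F), x = x' + algebraMap F D t ∧
      Matrix.trace (ρ x') = 0 := by
    intro x
    obtain ⟨t, ht⟩ := htr x
    refine ⟨x - algebraMap F D (t / 5), t / 5, by abel, ?_⟩
    rw [map_sub, Matrix.trace_sub, ht, htrF, map_div₀, map_ofNat]
    field_simp
    ring
  -- a scalar of trace zero is zero
  have hscal : ∀ x : D, Matrix.trace (ρ x) = 0 → (∃ g : F, x = algebraMap F D g) → x = 0 := by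
    rintro x hx ⟨g, rfl⟩
    rw [htrF] at hx
    have h0 : algebraMap F L g = 0 := (mul_eq_zero.1 hx).resolve_left hL5
    rw [(map_eq_zero _).1 h0, map_zero]
  -- strictly upper triangular matrices
  have hflat : ∀ T : Matrix (Fin 5) (Fin 5) L, (∀ i j : Fin 5, j ≤ i → T i j = 0) →
      T.charpoly = X ^ 5 := by
    intro T hT
    have h1 := charpoly_of_upper T 0 (by
      intro i j hij
      rw [map_zero, sub_zero]
      exact hT i j hij)
    rw [h1, C_0, sub_zero]
  have hco : ∀ (m : ℕ), m ≠ 5 → (X ^ 5 : L[X]).coeff m = 0 := by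
    intro m h5
    rw [coeff_X_pow, if_neg h5]
  -- the line lemma
  have hline : ∀ (α β : D), (∀ i j : Fin 5, j ≤ i → (ρ α + θ • ρ β) i j = 0) →
      (∃ a : F, α = algebraMap F D a) ∧ ∃ b : F, β = algebraMap F D b := by
    intro α β h
    have hch := hflat _ h
    have hsumθ : ∑ i ∈ Finset.range (1 + 1), θ ^ i • ρ ((fun i : ℕ => if i = 0 then α else β) i) =
        ρ α + θ • ρ β := by
      simp [Finset.sum_range_succ]
    have hsum0 : ∑ i ∈ Finset.range (1 + 1), (0 : F) ^ i • (fun i : ℕ => if i = 0 then α else β) i =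
        α := by
      simp [Finset.sum_range_succ]
    have key : ∀ k, 1 ≤ k → k ≤ 3 → (ρ β).charpoly.coeff (5 - k) = 0 ∧
        (ρ α).charpoly.coeff (5 - k) = 0 := by
      intro k hk1 hk3
      obtain ⟨Q, hQd, hQe, hQθ, hQt⟩ := curve_coeff hdim hL θ hθ ρ hinj 1 k (by omega)
        (fun i : ℕ => if i = 0 then α else β)
      have hQ0 : Q = 0 := by
        apply eq_zero_of_small hθ
        · rw [hQθ, hsumθ, hch]
          exact hco _ (by omega)
        · omega
      constructor
      · rw [hQ0, coeff_zero, map_zero] at hQt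
        exact hQt.symm
      · have h0 := hQe 0
        rw [hQ0, eval_zero, map_zero, hsum0] at h0
        exact h0.symm
    exact ⟨hno α (key 1 (by omega) (by omega)).2 (key 2 (by omega) (by omega)).2
      (key 3 (by omega) (by omega)).2, hno β (key 1 (by omega) (by omega)).1
      (key 2 (by omega) (by omega)).1 (key 3 (by omega) (by omega)).1⟩
  obtain ⟨α0, β0, γ0, c, hnot0, htri0⟩ := exists_triangular hdim hL θ ρ
  obtain ⟨α, a1, hα1, htα⟩ := hnorm α0
  obtain ⟨β, b1, hβ1, htβ⟩ := hnorm β0
  obtain ⟨γ, g1, hγ1, htγ⟩ := hnorm γ0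
  have hnot : ¬ ((∃ a : F, α = algebraMap F D a) ∧ (∃ b : F, β = algebraMap F D b) ∧
      (∃ g : F, γ = algebraMap F D g)) := by
    rintro ⟨⟨a, ha⟩, ⟨b, hb⟩, ⟨g, hg⟩⟩
    exact hnot0 ⟨a + a1, b + b1, g + g1, by rw [hα1, ha, map_add], by rw [hβ1, hb, map_add],
      by rw [hγ1, hg, map_add]⟩
  have htri : ∀ i j : Fin 5, j ≤ i → (ρ α + θ • ρ β + θ ^ 2 • ρ γ) i j = 0 := by
    set c' : L := c - (algebraMap F L a1 + θ * algebraMap F L b1 + θ ^ 2 * algebraMap F L g1)
      with hc'
    have h1 : ∀ i j : Fin 5, j ≤ i →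
        (ρ α + θ • ρ β + θ ^ 2 • ρ γ) i j = if i = j then c' else 0 := by
      intro i j hij
      have h2 := htri0 i j hij
      simp only [hα1, hβ1, hγ1, map_add, Matrix.sub_apply, Matrix.add_apply, Matrix.smul_apply,
        Matrix.scalar_apply, Matrix.diagonal_apply, hρF, smul_eq_mul] at h2 ⊢
      by_cases hij' : i = j
      · simp only [hij', if_true] at h2 ⊢
        rw [hc']
        linear_combination h2
      · simp only [hij', if_false] at h2 ⊢
        linear_combination h2
    have h2 : Matrix.trace (ρ α + θ • ρ β + θ ^ 2 • ρ γ) = 5 * c' := by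
      rw [Matrix.trace]
      simp only [Matrix.diag_apply]
      rw [Finset.sum_congr rfl (fun i _ => h1 i i le_rfl)]
      simp
    rw [Matrix.trace_add, Matrix.trace_add, Matrix.trace_smul, Matrix.trace_smul, htα, htβ, htγ,
      smul_zero, smul_zero, add_zero, add_zero] at h2
    have h3 : c' = 0 := (mul_eq_zero.1 h2.symm).resolve_left hL5
    intro i j hij
    rw [h1 i j hij, h3, ite_self]
  have hch := hflat _ htri
  by_cases hγ : ∃ g : F, γ = algebraMap F D g
  · have hγ0 := hscal γ htγ hγ
    have h1 : ∀ i j : Fin 5, j ≤ i → (ρ α + θ • ρ β) i j = 0 := by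
      intro i j hij
      have h2 := htri i j hij
      rw [hγ0, map_zero, smul_zero, add_zero] at h2
      exact h2
    exact hnot ⟨(hline α β h1).1, (hline α β h1).2, hγ⟩
  · have hsumθ : ∑ i ∈ Finset.range (2 + 1),
        θ ^ i • ρ ((fun i : ℕ => if i = 0 then α else if i = 1 then β else γ) i) =
        ρ α + θ • ρ β + θ ^ 2 • ρ γ := by
      simp [Finset.sum_range_succ]
    have hsumF : ∀ s : F, ∑ i ∈ Finset.range (2 + 1),
        s ^ i • (fun i : ℕ => if i = 0 then α else if i = 1 then β else γ) i =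
        α + s • β + s ^ 2 • γ := by
      intro s
      simp [Finset.sum_range_succ]
    have key : ∀ k, 1 ≤ k → k ≤ 2 → (ρ γ).charpoly.coeff (5 - k) = 0 ∧
        ∀ s : F, (ρ (α + s • β + s ^ 2 • γ)).charpoly.coeff (5 - k) = 0 := by
      intro k hk1 hk2
      obtain ⟨Q, hQd, hQe, hQθ, hQt⟩ := curve_coeff hdim hL θ hθ ρ hinj 2 k (by omega)
        (fun i : ℕ => if i = 0 then α else if i = 1 then β else γ)
      have hQ0 : Q = 0 := by
        apply eq_zero_of_small hθ
        · rw [hQθ, hsumθ, hch]
          exact hco _ (by omega)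
        · omega
      constructor
      · rw [hQ0, coeff_zero, map_zero] at hQt
        exact hQt.symm
      · intro s
        have h0 := hQe s
        rw [hQ0, eval_zero, map_zero, hsumF] at h0
        exact h0.symm
    obtain ⟨Q, hQd, hQe, hQθ, hQt⟩ := curve_coeff hdim hL θ hθ ρ hinj 2 3 (by omega)
      (fun i : ℕ => if i = 0 then α else if i = 1 then β else γ)
    obtain ⟨a, b, hab⟩ := eq_mul_linear hθ (Q := Q) (by
      rw [hQθ, hsumθ, hch]
      exact hco _ (by omega)) (by omega)
    have hint : IsIntegral F θ := by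
      by_contra h
      rw [minpoly.eq_zero h, natDegree_zero] at hθ
      omega
    have hmon : (minpoly F θ).coeff 5 = 1 := by
      have := (minpoly.monic hint).coeff_natDegree
      rwa [hθ] at this
    have hcoef : Q.coeff 6 = a := by
      have h6 : (minpoly F θ).coeff 6 = 0 := coeff_eq_zero_of_natDegree_lt (by omega)
      rw [hab, mul_add, ← mul_assoc, coeff_add, coeff_mul_X, coeff_mul_C, coeff_mul_C, hmon, h6]
      ring
    have ha0 : a ≠ 0 := by
      intro ha
      apply hγ
      apply hno γ (key 1 (by omega) (by omega)).1 (key 2 (by omega) (by omega)).1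
      have h0 : algebraMap F L (Q.coeff 6) = (ρ γ).charpoly.coeff 2 := hQt
      rw [← h0, hcoef, ha, map_zero]
    have hfF := hno (α + (-b / a) • β + (-b / a) ^ 2 • γ)
      ((key 1 (by omega) (by omega)).2 _) ((key 2 (by omega) (by omega)).2 _) (by
        have h0 := hQe (-b / a)
        rw [hsumF] at h0
        rw [← h0, hab, eval_mul, eval_add, eval_mul, eval_C, eval_C, eval_X]
        have : a * (-b / a) + b = 0 := by field_simp; ring
        rw [this, mul_zero, map_zero])
    generalize hs : -b / a = s at hfF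
    have hf0 : α + s • β + s ^ 2 • γ = 0 := by
      apply hscal _ _ hfF
      rw [map_add, map_add, map_smul, map_smul, Matrix.trace_add, Matrix.trace_add,
        Matrix.trace_smul, Matrix.trace_smul, htα, htβ, htγ, smul_zero, smul_zero, add_zero,
        add_zero]
    have hne : θ - algebraMap F L s ≠ 0 := by
      intro h0
      have h1 : θ = algebraMap F L s := sub_eq_zero.1 h0
      rw [h1, minpoly.eq_X_sub_C, natDegree_X_sub_C] at hθ
      omega
    have hα : α = - (s • β) - s ^ 2 • γ := by
      rw [← sub_eq_zero, ← hf0]; abel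
    have h1 : ∀ i j : Fin 5, j ≤ i → (ρ (β + s • γ) + θ • ρ γ) i j = 0 := by
      intro i j hij
      have h2 := htri i j hij
      apply mul_left_cancel₀ hne
      rw [mul_zero]
      have hsm : ∀ (u : F) (x : L), u • x = algebraMap F L u * x := fun u x =>
        Algebra.smul_def u x
      simp only [hα, map_sub, map_neg, map_add, map_smul, Matrix.sub_apply, Matrix.neg_apply,
        Matrix.add_apply, Matrix.smul_apply, smul_eq_mul, hsm, map_pow] at h2 ⊢
      linear_combination h2
    exact hγ (hline _ _ h1).2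

theorem exists_good {F L D : Type*} [Field F] [Infinite F] [Field L] [Algebra F L]
    [DivisionRing D] [Algebra F D] (hdim : Module.finrank F D = 25)
    (hL : Module.finrank F L = 5) (θ : L) (hθ : (minpoly F θ).natDegree = 5)
    (ρ : D →ₐ[F] Matrix (Fin 5) (Fin 5) L)
    (hinj : ∀ d : Fin 5 → D, ∑ i : Fin 5, θ ^ (i : ℕ) • ρ (d i) = 0 → ∀ i, d i = 0) :
    ∃ x : D, (∀ c : F, x ≠ algebraMap F D c) ∧ (ρ x).charpoly.coeff 4 = 0 ∧
      (ρ x).charpoly.coeff 3 = 0 ∧ (ρ x).charpoly.coeff 2 = 0 := by
  by_cases h5 : (5 : F) = 0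
  · have : CharP F 5 := (CharP.charP_iff_prime_eq_zero Nat.prime_five).2 (by exact_mod_cast h5)
    exact exists_good_five hdim hL θ hθ ρ hinj
  · exact exists_good_ne_five h5 hdim hL θ hθ ρ hinj

end Pool.Agent.Helper96.CY
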