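import Mathlib
import Pool.Agent.Helper96.CY.B1
import Pool.Agent.Helper96.CY.B2
import Pool.Agent.Helper96.CY.B3
import Pool.Agent.Helper96.CY.B10

/-!
PROJECT CY5, piece B11. Every central division algebra of degree 5 contains
`x` outside the centre with `x^5 + b x + c = 0`.

Proof: B1, B2, B10; the charpoly of `ρ x` is monic of degree 5 with coefficients in `F` (B3) and
coefficients 4, 3, 2 zero; Cayley-Hamilton (`Matrix.aeval_self_charpoly`) and injectivity of `ρ`
(`D` is a division ring).
-/

namespace Pool.Agent.Helper96.CY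

theorem exists_quintic {F D : Type*} [Field F] [Infinite F] [DivisionRing D]
    [Algebra F D] (hcen : ∀ x : D, (∀ y, x * y = y * x) → ∃ c : F, algebraMap F D c = x)
    (hdim : Module.finrank F D = 25) :
    ∃ (x : D) (b c : F), (∀ r : F, x ≠ algebraMap F D r) ∧
      x ^ 5 + b • x + algebraMap F D c = 0 := by
  obtain ⟨L, _, _, θ, ι, hL, hθ⟩ := exists_subfield hcen hdim
  obtain ⟨ρ, hinj⟩ := exists_rep hcen hdim ι hL θ hθ
  have hgood := exists_good (F := F) (L := L) (D := D) hdim hL θ hθ ρ hinj
  obtain ⟨x, hx, h4, h3, h2⟩ := hgood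
  have hmem := charpoly_mem (F := F) (L := L) (D := D) hdim hL θ hθ ρ hinj x
  obtain ⟨P, hP⟩ := hmem
  have hdeg : (ρ x).charpoly.natDegree = 5 := by
    rw [Matrix.charpoly_natDegree_eq_dim, Fintype.card_fin]
  have hmon : (ρ x).charpoly.Monic := Matrix.charpoly_monic _
  have hPdeg : P.natDegree = 5 := by
    have h1 := congrArg Polynomial.natDegree hP
    rw [Polynomial.natDegree_map_eq_of_injective (algebraMap F L).injective, hdeg] at h1
    exact h1.symm
  have hPmon : P.Monic :=
    Polynomial.monic_of_injective (algebraMap F L).injective (by rwa [hP] at hmon)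
  have hinj0 : Function.Injective (algebraMap F L) := (algebraMap F L).injective
  have hc : ∀ i, (ρ x).charpoly.coeff i = 0 → P.coeff i = 0 := by
    intro i hi
    rw [hP, Polynomial.coeff_map] at hi
    exact hinj0 (by rw [hi, map_zero])
  have h5 : P.coeff 5 = 1 := by
    have := hPmon.coeff_natDegree
    rwa [hPdeg] at this
  have hCH : Polynomial.aeval (ρ x) (ρ x).charpoly = 0 := Matrix.aeval_self_charpoly _
  rw [hP, Polynomial.aeval_map_algebraMap, Polynomial.aeval_algHom_apply] at hCH
  have hρ : Function.Injective ρ := ρ.toRingHom.injective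
  have h0 : Polynomial.aeval x P = 0 := hρ (by rw [hCH, map_zero])
  refine ⟨x, P.coeff 1, P.coeff 0, hx, ?_⟩
  rw [Polynomial.aeval_eq_sum_range' (show P.natDegree < 6 by omega)] at h0
  simp only [Finset.sum_range_succ, Finset.sum_range_zero, hc 4 h4, hc 3 h3, hc 2 h2, h5,
    zero_smul, add_zero, zero_add, pow_zero, pow_one, one_smul] at h0
  rw [Algebra.algebraMap_eq_smul_one, ← h0]
  abel

end Pool.Agent.Helper96.CY
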