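import Mathlib
import Pool.Agent.Helper58.CY.Defs
import Pool.Agent.Helper96.CY.B0
import Pool.Agent.Helper96.CY.B11

/-!
PROJECT CY5, piece Z1. From a division form `D` of `M_5(Ω)` (helper58's `IsForm`, `IsDiv`) to an
element with `e_1 = e_2 = e_3 = 0`.

Proof: `D` is a division ring (`IsDiv`; noncomputable inverse), `Module.finrank F D = 25` (the 25
elements of `IsForm` are an `F`-basis), its centre is `F`: an element of `D` commuting with `D`
commutes with `M_5(Ω)` (the 25 elements are an `Ω`-basis), so it is `c • 1`, and comparing the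
coordinates of `c • 1` and `1` in the basis gives `c` in the image of `F`. B11 gives `x` in `D`
outside `F` with `x^5 + b x + c = 0`. The degree of `minpoly F x` divides 25 (B0), is not 1 and at
most 5, so `1, x, ..., x^4` are linearly independent over `F`, hence over `Ω` (form), so the minimal
polynomial of `x` over `Ω` has degree at least 5, divides `x.charpoly` and `X^5 + b X + c`, both monic
of degree 5: they are equal.
-/

namespace Pool.Agent.Helper96.CY

open Pool.Agent.Helper58.CY

section z1

variable {F Ω : Type*} [Field F] [Field Ω] [Algebra F Ω]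

private theorem z1_finrank_M5 : Module.finrank Ω (M5 Ω) = 25 := by
  rw [Module.finrank_matrix, Module.finrank_self, Fintype.card_fin]

private theorem z1_basis (D : Subalgebra F (M5 Ω)) (b : Fin 25 → M5 Ω) (hb : ∀ i, b i ∈ D)
    (hli : LinearIndependent Ω b) (hs : ∀ d ∈ D, ∃ c : Fin 25 → F, d = ∑ i, c i • b i) :
    ∃ B : Module.Basis (Fin 25) F D, ∀ i, ((B i : D) : M5 Ω) = b i := by
  have h1 : LinearIndependent F b := hli.restrict_scalars' (R := F)
  have h2 : LinearIndependent F (fun i => (⟨b i, hb i⟩ : D)) :=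
    LinearIndependent.of_comp D.val.toLinearMap h1
  have h3 : ⊤ ≤ Submodule.span F (Set.range fun i => (⟨b i, hb i⟩ : D)) := by
    rintro ⟨d, hd⟩ -
    obtain ⟨c, hc⟩ := hs d hd
    have h4 : (⟨d, hd⟩ : D) = ∑ i, c i • (⟨b i, hb i⟩ : D) := by
      apply Subtype.ext
      have h5 : D.val (∑ i, c i • (⟨b i, hb i⟩ : D)) =
          ∑ i, D.val (c i • (⟨b i, hb i⟩ : D)) := map_sum D.val _ _
      have h6 : ((∑ i, c i • (⟨b i, hb i⟩ : D) : D) : M5 Ω) = ∑ i, c i • b i := h5
      rw [h6]
      exact hc
    rw [h4]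
    exact Submodule.sum_mem _ fun i _ => Submodule.smul_mem _ _ (Submodule.subset_span ⟨i, rfl⟩)
  refine ⟨Module.Basis.mk h2 h3, fun i => ?_⟩
  rw [Module.Basis.mk_apply]

private theorem z1_span (b : Fin 25 → M5 Ω) (hli : LinearIndependent Ω b) :
    Submodule.span Ω (Set.range b) = ⊤ := by
  apply hli.span_eq_top_of_card_eq_finrank'
  rw [z1_finrank_M5, Fintype.card_fin]

/-- `F`-independent elements of a form are `Ω`-independent -/
private theorem z1_indep (D : Subalgebra F (M5 Ω)) (hD : IsForm D) (v : Fin 5 → D)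
    (hv : LinearIndependent F v) : LinearIndependent Ω (fun i => ((v i : D) : M5 Ω)) := by
  classical
  obtain ⟨b, hb, hli, hs⟩ := hD
  obtain ⟨B, hB⟩ := z1_basis D b hb hli hs
  haveI : Module.Finite F D := Module.Finite.of_basis B
  have hrank : Module.finrank F D = 25 := by
    rw [Module.finrank_eq_card_basis B, Fintype.card_fin]
  have hs1 : LinearIndepOn F id (Set.range v) := hv.linearIndepOn_id
  let B' := Module.Basis.extend hs1
  letI : Fintype (hs1.extend (Set.subset_univ (Set.range v))) :=
    FiniteDimensional.fintypeBasisIndex B'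
  let w : hs1.extend (Set.subset_univ (Set.range v)) → M5 Ω := fun x => ((x : D) : M5 Ω)
  have hw : LinearIndependent Ω w := by
    apply linearIndependent_of_top_le_span_of_card_eq_finrank
    · rw [← z1_span b hli]
      apply Submodule.span_le.2
      rintro _ ⟨i, rfl⟩
      have h1 := B'.sum_repr (⟨b i, hb i⟩ : D)
      have h2 : b i = ∑ j, B'.repr (⟨b i, hb i⟩ : D) j • w j := by
        have h3 := congrArg D.val h1
        rw [map_sum] at h3
        have h4 : D.val (⟨b i, hb i⟩ : D) = b i := rfl
        rw [h4] at h3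
        refine h3.symm.trans ?_
        refine Finset.sum_congr rfl fun j _ => ?_
        rw [map_smul, Module.Basis.extend_apply_self]
        rfl
      show b i ∈ Submodule.span Ω (Set.range w)
      rw [h2]
      refine Submodule.sum_mem _ fun j _ => ?_
      rw [← algebraMap_smul Ω]
      exact Submodule.smul_mem _ _ (Submodule.subset_span ⟨j, rfl⟩)
    · rw [z1_finrank_M5, ← hrank]
      exact (Module.finrank_eq_card_basis B').symm
  let e : Fin 5 → hs1.extend (Set.subset_univ (Set.range v)) := fun i =>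
    ⟨v i, Module.Basis.subset_extend hs1 ⟨i, rfl⟩⟩
  have he : Function.Injective e := by
    intro i j hij
    exact hv.injective (congrArg Subtype.val hij)
  exact hw.comp e he

private theorem z1_center (D : Subalgebra F (M5 Ω)) (hD : IsForm D) (x : D)
    (hx : ∀ y : D, x * y = y * x) : ∃ c : F, algebraMap F D c = x := by
  classical
  obtain ⟨b, hb, hli, hs⟩ := hD
  have hcomm : ∀ M : M5 Ω, (x : M5 Ω) * M = M * (x : M5 Ω) := by
    intro M
    have hM : M ∈ Submodule.span Ω (Set.range b) := by
      rw [z1_span b hli]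
      exact Submodule.mem_top
    refine Submodule.span_induction ?_ ?_ ?_ ?_ hM
    · rintro _ ⟨i, rfl⟩
      exact congrArg Subtype.val (hx ⟨b i, hb i⟩)
    · rw [mul_zero, zero_mul]
    · intro p q _ _ hp hq
      rw [mul_add, add_mul, hp, hq]
    · intro a p _ hp
      rw [Matrix.mul_smul, Matrix.smul_mul, hp]
  obtain ⟨c, hc⟩ : ∃ c : Ω, (x : M5 Ω) = c • (1 : M5 Ω) := by
    have h1 : (x : M5 Ω) ∈ Set.range (Matrix.scalar (Fin 5)) :=
      Matrix.mem_range_scalar_of_commute_single fun i j _ => (hcomm _).symm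
    obtain ⟨c, hc⟩ := h1
    refine ⟨c, ?_⟩
    rw [← hc, Matrix.scalar_apply, Matrix.smul_one_eq_diagonal]
  obtain ⟨e, he⟩ := hs 1 (one_mem D)
  obtain ⟨f, hf⟩ := hs x x.2
  have key : ∀ i, algebraMap F Ω (f i) = c * algebraMap F Ω (e i) := by
    have h0 : ∑ i, (algebraMap F Ω (f i) - c * algebraMap F Ω (e i)) • b i = 0 := by
      have h1 : (∑ i, f i • b i) = c • (∑ i, e i • b i) := by
        rw [← hf, ← he]; exact hc
      rw [Finset.smul_sum, ← sub_eq_zero, ← Finset.sum_sub_distrib] at h1
      rw [← h1]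
      refine Finset.sum_congr rfl fun i _ => ?_
      rw [sub_smul, mul_smul, algebraMap_smul, algebraMap_smul]
    intro i
    have := Fintype.linearIndependent_iff.mp hli _ h0 i
    exact sub_eq_zero.mp this
  have ha0 : ∃ i, e i ≠ 0 := by
    by_contra hz
    push Not at hz
    have : (1 : M5 Ω) = 0 := by
      rw [he]
      exact Finset.sum_eq_zero fun i _ => by rw [hz i, zero_smul]
    exact one_ne_zero this
  obtain ⟨i, hi⟩ := ha0
  have hiΩ : algebraMap F Ω (e i) ≠ 0 := (map_ne_zero (algebraMap F Ω)).mpr hi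
  refine ⟨f i / e i, ?_⟩
  apply Subtype.ext
  have h2 : ((algebraMap F D (f i / e i) : D) : M5 Ω) = (f i / e i) • (1 : M5 Ω) := by
    rw [Algebra.algebraMap_eq_smul_one]
    rfl
  rw [h2, hc, ← algebraMap_smul Ω, map_div₀, key i, mul_div_assoc, div_self hiΩ, mul_one]

/-- from the quintic relation to the characteristic polynomial -/
private theorem z1_charpoly (D : Subalgebra F (M5 Ω)) (hD : IsForm D) (x : D)
    (hdeg : (minpoly F x).natDegree = 5) (b c : F) (h : x ^ 5 + b • x + algebraMap F D c = 0) :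
    (∀ c : Ω, (x : M5 Ω) ≠ c • (1 : M5 Ω)) ∧ (x : M5 Ω).charpoly.coeff 4 = 0 ∧
      (x : M5 Ω).charpoly.coeff 3 = 0 ∧ (x : M5 Ω).charpoly.coeff 2 = 0 := by
  have hv : LinearIndependent F (fun i : Fin 5 => x ^ (i : ℕ)) := by
    have h1 := linearIndependent_pow (K := F) x
    rw [hdeg] at h1
    exact h1
  have hw := z1_indep D hD _ hv
  have hw' : LinearIndependent Ω (fun i : Fin 5 => (x : M5 Ω) ^ (i : ℕ)) := by
    have h2 : (fun i : Fin 5 => (((x ^ (i : ℕ) : D)) : M5 Ω)) =
        fun i : Fin 5 => (x : M5 Ω) ^ (i : ℕ) := by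
      funext i
      exact map_pow D.val x _
    rw [← h2]
    exact hw
  have hlin := Fintype.linearIndependent_iff.mp hw'
  set P : Polynomial Ω := Polynomial.X ^ 5 + (Polynomial.C (algebraMap F Ω b) * Polynomial.X +
    Polynomial.C (algebraMap F Ω c)) with hP
  have hPlow : (Polynomial.C (algebraMap F Ω b) * Polynomial.X +
      Polynomial.C (algebraMap F Ω c)).degree < 5 := by
    refine lt_of_le_of_lt (Polynomial.degree_linear_le) ?_
    norm_num
  have hPmon : P.Monic := Polynomial.monic_X_pow_add hPlow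
  have hPdeg : P.natDegree = 5 := by
    rw [hP, Polynomial.natDegree_add_eq_left_of_degree_lt
      (by rw [Polynomial.degree_X_pow]; exact_mod_cast hPlow), Polynomial.natDegree_X_pow]
  have hPx : Polynomial.aeval (x : M5 Ω) P = 0 := by
    have h1 := congrArg D.val h
    rw [map_add, map_add, map_pow, map_smul, map_zero] at h1
    have h2 : D.val (algebraMap F D c) = c • (1 : M5 Ω) := by
      rw [Algebra.algebraMap_eq_smul_one, map_smul, map_one]
    rw [h2] at h1
    have h3 : D.val x = (x : M5 Ω) := rfl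
    rw [h3] at h1
    have h4 : ∀ r : F, algebraMap Ω (M5 Ω) (algebraMap F Ω r) = r • (1 : M5 Ω) := fun r => by
      rw [Algebra.algebraMap_eq_smul_one (R := Ω) (A := M5 Ω), algebraMap_smul]
    rw [hP, map_add, map_add, map_pow, map_mul, Polynomial.aeval_X, Polynomial.aeval_C,
      Polynomial.aeval_C, h4, h4, smul_mul_assoc, one_mul, ← add_assoc]
    exact h1
  have hmin5 : 5 ≤ (minpoly Ω (x : M5 Ω)).natDegree := by
    by_contra hlt
    push Not at hlt
    have h1 : Polynomial.aeval (x : M5 Ω) (minpoly Ω (x : M5 Ω)) = 0 := minpoly.aeval _ _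
    rw [Polynomial.aeval_eq_sum_range' hlt, Finset.sum_range] at h1
    have h2 := hlin _ h1 ⟨(minpoly Ω (x : M5 Ω)).natDegree, hlt⟩
    have h3 : (minpoly Ω (x : M5 Ω)).Monic :=
      minpoly.monic (Matrix.isIntegral (x : M5 Ω))
    have h4 := h3.coeff_natDegree
    simp only at h2
    rw [h4] at h2
    exact one_ne_zero h2
  have hmmon : (minpoly Ω (x : M5 Ω)).Monic := minpoly.monic (Matrix.isIntegral (x : M5 Ω))
  have hcdeg : (x : M5 Ω).charpoly.natDegree = 5 := by
    rw [Matrix.charpoly_natDegree_eq_dim, Fintype.card_fin]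
  have e1 : minpoly Ω (x : M5 Ω) = (x : M5 Ω).charpoly :=
    Polynomial.eq_of_dvd_of_natDegree_le_of_leadingCoeff (Matrix.minpoly_dvd_charpoly _)
      (by rw [hcdeg]; exact hmin5)
      (by rw [hmmon.leadingCoeff, (Matrix.charpoly_monic (x : M5 Ω)).leadingCoeff])
  have e2 : minpoly Ω (x : M5 Ω) = P :=
    Polynomial.eq_of_dvd_of_natDegree_le_of_leadingCoeff (minpoly.dvd _ _ hPx)
      (by rw [hPdeg]; exact hmin5)
      (by rw [hmmon.leadingCoeff, hPmon.leadingCoeff])
  refine ⟨?_, ?_, ?_, ?_⟩
  · intro a ha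
    have h1 : ∑ i : Fin 5, (![-a, 1, 0, 0, 0] : Fin 5 → Ω) i • (x : M5 Ω) ^ (i : ℕ) = 0 := by
      simp [Fin.sum_univ_succ, ha]
    have h2 := hlin _ h1 1
    exact one_ne_zero h2
  · rw [← e1, e2, hP]
    simp [Polynomial.coeff_X_pow]
  · rw [← e1, e2, hP]
    simp [Polynomial.coeff_X_pow]
  · rw [← e1, e2, hP]
    simp [Polynomial.coeff_X_pow]

private theorem z1_unit (D : Subalgebra F (M5 Ω)) (hdiv : IsDiv D) (a : D) :
    IsUnit a ∨ a = 0 := by
  by_cases ha : a = 0
  · exact Or.inr ha
  · left
    have ha' : (a : M5 Ω) ≠ 0 := fun h => ha (Subtype.ext h)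
    obtain ⟨d', hd', h1⟩ := hdiv a a.2 ha'
    have h2 : d' * (a : M5 Ω) = 1 := mul_eq_one_comm.mp h1
    exact ⟨⟨a, ⟨d', hd'⟩, Subtype.ext h1, Subtype.ext h2⟩, rfl⟩

end z1

theorem form_div_good {F Ω : Type*} [Field F] [Infinite F] [Field Ω] [Algebra F Ω]
    (D : Subalgebra F (M5 Ω)) (hD : IsForm D) (hdiv : IsDiv D) :
    ∃ x ∈ D, (∀ c : Ω, x ≠ c • (1 : M5 Ω)) ∧ x.charpoly.coeff 4 = 0 ∧
      x.charpoly.coeff 3 = 0 ∧ x.charpoly.coeff 2 = 0 := by
  classical
  have hcen := z1_center D hD
  have hrank : Module.finrank F D = 25 := by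
    obtain ⟨b, hb, hli, hs⟩ := hD
    obtain ⟨B, hB⟩ := z1_basis D b hb hli hs
    rw [Module.finrank_eq_card_basis B, Fintype.card_fin]
  have hfin : Module.Finite F D := by
    obtain ⟨b, hb, hli, hs⟩ := hD
    obtain ⟨B, hB⟩ := z1_basis D b hb hli hs
    exact Module.Finite.of_basis B
  have hnt : Nontrivial D := ⟨⟨0, 1, fun h => by
    have := congrArg D.val h
    rw [map_zero, map_one] at this
    exact zero_ne_one this⟩⟩
  letI inst : DivisionRing D := DivisionRing.ofIsUnitOrEqZero (z1_unit D hdiv)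
  obtain ⟨x, b, c, hx, h⟩ := exists_quintic (F := F) (D := D) hcen hrank
  have hxi : IsIntegral F x := Algebra.IsIntegral.isIntegral x
  have hdeg : (minpoly F x).natDegree = 5 := by
    have h25 : (minpoly F x).natDegree ∣ 25 := by
      have := natDegree_minpoly_dvd (F := F) (D := D) x
      rwa [hrank] at this
    have h1 : (minpoly F x).natDegree ≠ 1 := by
      intro h1
      rw [minpoly.natDegree_eq_one_iff] at h1
      obtain ⟨r, hr⟩ := h1
      exact hx r hr.symm
    have h5 : (minpoly F x).natDegree ≤ 5 := by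
      have hlow : (Polynomial.C b * Polynomial.X + Polynomial.C c).degree < 5 := by
        refine lt_of_le_of_lt (Polynomial.degree_linear_le) ?_
        norm_num
      have hmon : (Polynomial.X ^ 5 + (Polynomial.C b * Polynomial.X + Polynomial.C c)).Monic :=
        Polynomial.monic_X_pow_add hlow
      have hd : (Polynomial.X ^ 5 + (Polynomial.C b * Polynomial.X +
          Polynomial.C c)).natDegree = 5 := by
        rw [Polynomial.natDegree_add_eq_left_of_degree_lt
          (by rw [Polynomial.degree_X_pow]; exact_mod_cast hlow), Polynomial.natDegree_X_pow]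
      have h0 : Polynomial.aeval x (Polynomial.X ^ 5 + (Polynomial.C b * Polynomial.X +
          Polynomial.C c)) = 0 := by
        rw [map_add, map_add, map_pow, map_mul, Polynomial.aeval_X, Polynomial.aeval_C,
          Polynomial.aeval_C, ← Algebra.smul_def, ← add_assoc]
        exact h
      have := minpoly.min F x hmon h0
      have h6 := Polynomial.natDegree_le_natDegree this
      rwa [hd] at h6
    have h52 : (25 : ℕ) = 5 ^ 2 := by norm_num
    rw [h52] at h25
    obtain ⟨k, hk, hk2⟩ := (Nat.dvd_prime_pow Nat.prime_five).1 h25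
    interval_cases k
    · exact absurd (by simpa using hk2) h1
    · simpa using hk2
    · rw [hk2] at h5
      norm_num at h5
  have hres := z1_charpoly D hD x hdeg b c h
  exact ⟨x, x.2, hres⟩

end Pool.Agent.Helper96.CY
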