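import Mathlib
import Pool.Agent.Helper58.CY.E1
import Pool.Agent.Helper58.CY.F5
import Pool.Agent.Helper58.CY.F6
import Pool.Agent.Helper58.CY.F7
import Pool.Agent.Helper58.CY.F8
import Pool.Agent.Helper96.CY.Z1

/-!
PROJECT CY5, piece Z2. Bring-Jerrard polynomials for `M_5(K)`, `K` any infinite field.
-/

namespace Pool.Agent.Helper96.CY

open Pool.Agent.Helper58.CY Polynomial

theorem z2_smul_coeff {Ω : Type*} [Field Ω] [Infinite Ω] (e : Ω) (he : e ≠ 0) (x : M5 Ω) (j : ℕ)
    (hx : x.charpoly.coeff j = 0) : (e • x).charpoly.coeff j = 0 := by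
  have h1 : (e • x).charpoly.comp (C e * X) = C (e ^ 5) * x.charpoly := by
    apply Polynomial.funext
    intro t
    rw [eval_comp, eval_mul, eval_mul, eval_C, eval_C, eval_X, Matrix.eval_charpoly,
      Matrix.eval_charpoly]
    have h2 : Matrix.scalar (Fin 5) (e * t) - e • x = e • (Matrix.scalar (Fin 5) t - x) := by
      ext i j
      simp only [Matrix.sub_apply, Matrix.smul_apply, Matrix.scalar_apply, Matrix.diagonal_apply,
        smul_eq_mul]
      split_ifs <;> ring
    rw [h2, Matrix.det_smul, Fintype.card_fin]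
  have h3 := congrArg (fun p : Polynomial Ω => p.coeff j) h1
  simp only [comp_C_mul_X_coeff, coeff_C_mul, hx, mul_zero] at h3
  exact (mul_eq_zero.1 h3).resolve_right (pow_ne_zero _ he)

theorem z2_sq_zero {Ω : Type*} [Field Ω] (u : M5 Ω) (hu : u * u = 0) : u.charpoly = X ^ 5 := by
  have hn : IsNilpotent u := ⟨2, by rw [pow_two, hu]⟩
  have h := (Matrix.isNilpotent_charpoly_sub_pow_of_isNilpotent hn).eq_zero
  rw [Fintype.card_fin] at h
  exact sub_eq_zero.1 h

theorem z2_monic_form {K : Type*} [Field K] (M : M5 K) (h4 : M.charpoly.coeff 4 = 0)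
    (h3 : M.charpoly.coeff 3 = 0) (h2 : M.charpoly.coeff 2 = 0) :
    ∃ A B : K, M.charpoly = X ^ 5 + C A * X + C B := by
  have hdeg : M.charpoly.natDegree = 5 := by
    rw [Matrix.charpoly_natDegree_eq_dim, Fintype.card_fin]
  have h5 : M.charpoly.coeff 5 = 1 := by
    have := (Matrix.charpoly_monic M).coeff_natDegree
    rwa [hdeg] at this
  refine ⟨M.charpoly.coeff 1, M.charpoly.coeff 0, ?_⟩
  conv_lhs => rw [Polynomial.as_sum_range_C_mul_X_pow' M.charpoly (show M.charpoly.natDegree < 6 by omega)]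
  simp only [Finset.sum_range_succ, Finset.sum_range_zero, h2, h3, h4, h5, map_zero, zero_mul,
    add_zero, zero_add, pow_zero, pow_one, mul_one, map_one, one_mul]
  ring

theorem bring_jerrard (K : Type*) [Field K] [Infinite K] :
    ∃ P : FreeAlgebra K Idx, ¬ ScalarValued P ∧ ∀ a : Idx → M5 K, ∃ A B : K,
      (FreeAlgebra.lift K a P).charpoly = X ^ 5 + C A * X + C B := by
  have hθ : gen K (0, 0) ∈ GG K := Algebra.subset_adjoin ⟨_, rfl⟩
  have hform : IsForm (DD (GG K)) := F5 (GG K) (F6 K) _ hθ (F7 K)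
  have hinjK : Function.Injective (algebraMap K (Om K)) := (algebraMap K (Om K)).injective
  have : Infinite (Om K) := Infinite.of_injective _ hinjK
  have : Infinite (FF (GG K)) := by
    refine Infinite.of_injective (fun k : K => (⟨algebraMap K (Om K) k,
      Subfield.subset_closure ((CC (GG K)).algebraMap_mem k)⟩ : FF (GG K))) ?_
    intro a b hab
    have h := congrArg (fun x : FF (GG K) => (x : Om K)) hab
    exact hinjK h
  have hgood : ∃ x ∈ DD (GG K), (∀ c : Om K, x ≠ c • (1 : M5 (Om K))) ∧ x.charpoly.coeff 4 = 0 ∧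
      x.charpoly.coeff 3 = 0 ∧ x.charpoly.coeff 2 = 0 := by
    by_cases hdiv : IsDiv (DD (GG K))
    · exact form_div_good _ hform hdiv
    · obtain ⟨u, hu, hu0, huu⟩ := E1 _ hform hdiv
      refine ⟨u, hu, ?_, ?_, ?_, ?_⟩
      · rintro c rfl
        rw [smul_mul_smul_comm, mul_one] at huu
        have h1 := congrFun (congrFun huu 0) 0
        rw [Matrix.smul_apply, Matrix.one_apply_eq, smul_eq_mul, mul_one, Matrix.zero_apply] at h1
        rw [mul_self_eq_zero.1 h1, zero_smul] at hu0
        exact hu0 rfl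
      all_goals
        rw [z2_sq_zero u huu, coeff_X_pow]
        norm_num
  obtain ⟨x, hx, hxns, h4, h3, h2⟩ := hgood
  obtain ⟨e, he, he0, hex⟩ := (mem_DD _ _).mp hx
  obtain ⟨P, hP⟩ := F8a K (e • x) hex
  have hinjR : Function.Injective (algebraMap (RR K) (Om K)) := by
    rw [IsScalarTower.algebraMap_eq (RR K) (FractionRing (RR K)) (Om K)]
    exact (algebraMap (FractionRing (RR K)) (Om K)).injective.comp
      (IsFractionRing.injective (RR K) (FractionRing (RR K)))
  have hR : ∀ j, x.charpoly.coeff j = 0 → (FreeAlgebra.lift K (genR K) P).charpoly.coeff j = 0 := by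
    intro j hj
    apply hinjR
    rw [map_zero, ← Polynomial.coeff_map, ← Matrix.charpoly_map]
    have h1 : (FreeAlgebra.lift K (genR K) P).map (algebraMap (RR K) (Om K)) = e • x := by
      rw [F8b' K P, hP]
    rw [h1]
    exact z2_smul_coeff e he0 x j hj
  have ha : ∀ (a : Idx → M5 K) (j : ℕ), x.charpoly.coeff j = 0 →
      (FreeAlgebra.lift K a P).charpoly.coeff j = 0 := by
    intro a j hj
    rw [← F8b K P a, Matrix.charpoly_map, Polynomial.coeff_map, hR j hj, map_zero]
  refine ⟨P, ?_, ?_⟩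
  · intro hS
    obtain ⟨c, hc⟩ := (F8c K P).mpr hS
    rw [hP] at hc
    apply hxns (e⁻¹ * c)
    rw [mul_smul, ← hc, smul_smul, inv_mul_cancel₀ he0, one_smul]
  · intro a
    exact z2_monic_form _ (ha a 4 h4) (ha a 3 h3) (ha a 2 h2)

end Pool.Agent.Helper96.CY
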