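import Mathlib
import Pool.Agent.Helper96.CY.Z2
import Pool.Agent.Helper96.CY.B11

/-!
PROJECT CY5: the Bring-Jerrard theorem, final form.
-/

namespace Pool.Agent.Helper96.CY

open Pool.Agent.Helper58.CY Polynomial

universe u

/-- renaming the variables of a free polynomial -/
theorem lift_rename {K : Type*} [Field K] {ι κ : Type*} (f : ι → κ) (P : FreeAlgebra K ι)
    (a : κ → M5 K) :
    FreeAlgebra.lift K a (FreeAlgebra.lift K (fun i => FreeAlgebra.ι K (f i)) P) =
      FreeAlgebra.lift K (fun i => a (f i)) P := by
  have h : (FreeAlgebra.lift K a).comp (FreeAlgebra.lift K (fun i => FreeAlgebra.ι K (f i))) =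
      FreeAlgebra.lift K (fun i => a (f i)) := by
    apply FreeAlgebra.hom_ext
    funext i
    simp only [Function.comp_apply, AlgHom.comp_apply, AlgHom.coe_comp, FreeAlgebra.lift_ι_apply]
  exact DFunLike.congr_fun h P

/-- the polynomial statement with variables indexed by `Fin 25` -/
theorem bring_jerrard_fin (K : Type*) [Field K] [Infinite K] :
    ∃ p : FreeAlgebra K (Fin 25),
      (∃ a : Fin 25 → Matrix (Fin 5) (Fin 5) K, ∀ c : K,
        FreeAlgebra.lift K a p ≠ Matrix.scalar (Fin 5) c) ∧
      ∀ a : Fin 25 → Matrix (Fin 5) (Fin 5) K, ∃ A B : K,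
        (FreeAlgebra.lift K a p).charpoly = X ^ 5 + C A * X + C B := by
  obtain ⟨P, hP, hc⟩ := bring_jerrard K
  let e : Idx ≃ Fin 25 := finProdFinEquiv
  refine ⟨FreeAlgebra.lift K (fun i => FreeAlgebra.ι K (e i)) P, ?_, ?_⟩
  · by_contra hcon
    push Not at hcon
    apply hP
    intro a
    obtain ⟨c, hc'⟩ := hcon (fun j => a (e.symm j))
    refine ⟨c, ?_⟩
    rw [lift_rename] at hc'
    have h1 : (fun i => a (e.symm (e i))) = a := by
      funext i
      rw [e.symm_apply_apply]
    rw [h1] at hc'
    rw [hc']
    ext i j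
    rw [Matrix.scalar_apply, Matrix.diagonal_apply, Matrix.smul_apply, Matrix.one_apply]
    split_ifs <;> simp
  · intro a
    rw [lift_rename]
    exact hc _

/-- the division algebra statement, without assuming the centre infinite -/
theorem exists_quintic' {F D : Type*} [Field F] [DivisionRing D]
    [Algebra F D] (hcen : ∀ x : D, (∀ y, x * y = y * x) → ∃ c : F, algebraMap F D c = x)
    (hdim : Module.finrank F D = 25) :
    ∃ (x : D) (b c : F), (∀ r : F, x ≠ algebraMap F D r) ∧
      x ^ 5 + b • x + algebraMap F D c = 0 := by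
  rcases finite_or_infinite F with hF | hF
  · exfalso
    have hfd : FiniteDimensional F D := Module.finite_of_finrank_pos (by omega)
    have hD : Finite D := Module.finite_of_finite F
    have hcomm : ∀ x y : D, x * y = y * x := by
      intro x y
      exact @mul_comm D (littleWedderburn D).toCommRing.toCommMonoid.toCommSemigroup.toCommMagma x y
    have h1 : Module.finrank F D ≤ 1 := by
      apply finrank_le_one (1 : D)
      intro x
      obtain ⟨c, hc⟩ := hcen x (hcomm x)
      exact ⟨c, by rw [← hc, Algebra.algebraMap_eq_smul_one]⟩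
    omega
  · exact exists_quintic hcen hdim

end Pool.Agent.Helper96.CY
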